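import Pool.Agent.Helper49.RC.St

/-!
# Project RC (record constant for MP_b21509_co), module POB: the first order condition
-/

set_option autoImplicit false

open MeasureTheory Set Filter Metric

namespace Pool.Agent.Helper36.RC

open Helper97.CB Helper49.LT Helper49.RC

/-! ### the support functional -/

theorem sp_bdd {K : Set ℂ} {R : ℝ} (hR : ∀ z ∈ K, ‖z‖ ≤ R) (p : ℂ) :
    BddAbove ((fun z : ℂ => (z * (starRingEnd ℂ) p).re) '' K) := by
  refine ⟨R * ‖p‖, ?_⟩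
  rintro _ ⟨z, hz, rfl⟩
  refine (Complex.re_le_norm _).trans ?_
  rw [norm_mul, Complex.norm_conj]
  exact mul_le_mul_of_nonneg_right (hR z hz) (norm_nonneg _)

theorem le_sp {K : Set ℂ} {R : ℝ} (hR : ∀ z ∈ K, ‖z‖ ≤ R) (p z : ℂ) (hz : z ∈ K) :
    (z * (starRingEnd ℂ) p).re ≤ sp K p :=
  le_csSup (sp_bdd hR p) ⟨z, hz, rfl⟩

theorem sp_le {K : Set ℂ} (hne : K.Nonempty) (p : ℂ) (c : ℝ)
    (h : ∀ z ∈ K, (z * (starRingEnd ℂ) p).re ≤ c) : sp K p ≤ c := by
  apply csSup_le (hne.image _)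
  rintro _ ⟨z, hz, rfl⟩
  exact h z hz

theorem sp_lip {K : Set ℂ} (hne : K.Nonempty) {R : ℝ} (hR : ∀ z ∈ K, ‖z‖ ≤ R) (x y : ℂ) :
    sp K x ≤ sp K y + R * ‖x - y‖ := by
  apply sp_le hne
  intro z hz
  have h1 : (z * (starRingEnd ℂ) x).re
      = (z * (starRingEnd ℂ) y).re + (z * (starRingEnd ℂ) (x - y)).re := by
    rw [← Complex.add_re, ← mul_add, ← map_add]
    congr 3
    ring
  rw [h1]
  have h2 := le_sp hR y z hz
  have h3 : (z * (starRingEnd ℂ) (x - y)).re ≤ R * ‖x - y‖ := by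
    refine (Complex.re_le_norm _).trans ?_
    rw [norm_mul, Complex.norm_conj]
    exact mul_le_mul_of_nonneg_right (hR z hz) (norm_nonneg _)
  linarith

theorem sp_cont {K : Set ℂ} (hne : K.Nonempty) {R : ℝ} (hR : ∀ z ∈ K, ‖z‖ ≤ R) :
    Continuous (sp K) := by
  have h0 : 0 ≤ R := by
    obtain ⟨z, hz⟩ := hne
    exact (norm_nonneg z).trans (hR z hz)
  have hl : LipschitzWith ⟨R, h0⟩ (sp K) := by
    refine LipschitzWith.of_dist_le_mul fun x y => ?_
    rw [Real.dist_eq, dist_eq_norm]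
    have h1 := sp_lip hne hR x y
    have h2 := sp_lip hne hR y x
    rw [norm_sub_rev] at h2
    show |sp K x - sp K y| ≤ R * ‖x - y‖
    rw [abs_le]
    constructor <;> linarith
  exact hl.continuous

theorem sp_nonneg {K : Set ℂ} (h0 : (0 : ℂ) ∈ K) {R : ℝ} (hR : ∀ z ∈ K, ‖z‖ ≤ R) (p : ℂ) :
    0 ≤ sp K p := by
  have := le_sp hR p 0 h0
  simpa using this

theorem sp_smul_le {K : Set ℂ} (hne : K.Nonempty) {R : ℝ} (hR : ∀ z ∈ K, ‖z‖ ≤ R) (c : ℝ)
    (hc : 0 ≤ c) (x : ℂ) : sp K ((c : ℂ) * x) ≤ c * sp K x := by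
  apply sp_le hne
  intro z hz
  have h1 : (z * (starRingEnd ℂ) ((c : ℂ) * x)).re = c * (z * (starRingEnd ℂ) x).re := by
    rw [map_mul, Complex.conj_ofReal, ← Complex.re_ofReal_mul]
    congr 1
    ring
  rw [h1]
  exact mul_le_mul_of_nonneg_left (le_sp hR x z hz) hc

theorem sp_smul {K : Set ℂ} (hne : K.Nonempty) {R : ℝ} (hR : ∀ z ∈ K, ‖z‖ ≤ R) (c : ℝ)
    (hc : 0 < c) (x : ℂ) : sp K ((c : ℂ) * x) = c * sp K x := by
  apply le_antisymm (sp_smul_le hne hR c hc.le x)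
  have h := sp_smul_le hne hR c⁻¹ (inv_pos.mpr hc).le ((c : ℂ) * x)
  have hc' : (c : ℂ) ≠ 0 := by exact_mod_cast hc.ne'
  have e : ((c⁻¹ : ℝ) : ℂ) * ((c : ℂ) * x) = x := by
    push_cast
    field_simp
  rw [e] at h
  calc c * sp K x ≤ c * (c⁻¹ * sp K ((c : ℂ) * x)) := mul_le_mul_of_nonneg_left h hc.le
    _ = sp K ((c : ℂ) * x) := by field_simp

/-! ### the angular change of variables -/

/-- `1 + ζ e^{-2it}` -/
noncomputable def qq (ζ : ℂ) (t : ℝ) : ℂ := 1 + ζ * ee (-2 * t)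

/-- the direction of `L (ee t)` -/
noncomputable def ph (ζ : ℂ) (t : ℝ) : ℝ := t + (Complex.log (qq ζ t)).im

theorem qq_re (ζ : ℂ) (hζ : ‖ζ‖ < 1) (t : ℝ) : 0 < (qq ζ t).re := by
  have h1 : |(ζ * ee (-2 * t)).re| ≤ ‖ζ‖ := by
    refine (Complex.abs_re_le_norm _).trans ?_
    rw [norm_mul, norm_ee, mul_one]
  have h2 := (abs_le.mp h1).1
  unfold qq
  rw [Complex.add_re, Complex.one_re]
  linarith

theorem qq_ne (ζ : ℂ) (hζ : ‖ζ‖ < 1) (t : ℝ) : qq ζ t ≠ 0 := by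
  intro h
  have := qq_re ζ hζ t
  rw [h] at this
  simp at this

theorem qq_cont (ζ : ℂ) : Continuous (qq ζ) := by
  unfold qq
  exact continuous_const.add (continuous_const.mul (continuous_ee.comp (by fun_prop)))

theorem qq_per (ζ : ℂ) (t : ℝ) : qq ζ (t + 2 * Real.pi) = qq ζ t := by
  have h2 := ee_int (-2) t
  push_cast at h2
  unfold qq
  rw [h2]

theorem qq_deriv (ζ : ℂ) (t : ℝ) :
    HasDerivAt (qq ζ) (-2 * Complex.I * (ζ * ee (-2 * t))) t := by
  have h := ((hasDerivAt_ee (-2) t).const_mul ζ).const_add 1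
  have e : ζ * (((-2 : ℝ) : ℂ) * Complex.I * ee (-2 * t))
      = -2 * Complex.I * (ζ * ee (-2 * t)) := by
    push_cast
    ring
  rw [e] at h
  exact h

theorem ph_deriv (ζ : ℂ) (hζ : ‖ζ‖ < 1) (t : ℝ) :
    HasDerivAt (ph ζ) ((1 - ‖ζ‖ ^ 2) / ‖qq ζ t‖ ^ 2) t := by
  have hq := qq_ne ζ hζ t
  have h1 := (qq_deriv ζ t).clog_real (Or.inl (qq_re ζ hζ t))
  have h2 := (Complex.imCLM.hasFDerivAt.comp_hasDerivAt t h1)
  have h3 := (hasDerivAt_id t).add h2
  have e : (1 : ℝ) + Complex.imCLM (-2 * Complex.I * (ζ * ee (-2 * t)) / qq ζ t)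
      = (1 - ‖ζ‖ ^ 2) / ‖qq ζ t‖ ^ 2 := by
    have hn : Complex.normSq (qq ζ t) ≠ 0 := by
      rw [Ne, Complex.normSq_eq_zero]
      exact hq
    have hz : ‖ζ‖ ^ 2 = Complex.normSq (ζ * ee (-2 * t)) := by
      rw [← Complex.sq_norm, norm_mul, norm_ee, mul_one]
    rw [hz, Complex.sq_norm, eq_div_iff hn]
    show (1 + (-2 * Complex.I * (ζ * ee (-2 * t)) / qq ζ t).im) * Complex.normSq (qq ζ t) = _
    rw [Complex.div_im]
    have e1 : (qq ζ t).re = 1 + (ζ * ee (-2 * t)).re := by unfold qq; simp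
    have e2 : (qq ζ t).im = (ζ * ee (-2 * t)).im := by unfold qq; simp
    generalize ζ * ee (-2 * t) = w at e1 e2 ⊢
    generalize qq ζ t = q at hn e1 e2 ⊢
    have e3 : (-2 * Complex.I * w).im = -2 * w.re := by simp
    have e4 : (-2 * Complex.I * w).re = 2 * w.im := by simp
    rw [e3, e4]
    have e5 : (1 + (-2 * w.re * q.re / Complex.normSq q - 2 * w.im * q.im / Complex.normSq q))
        * Complex.normSq q = Complex.normSq q + (-2 * w.re * q.re - 2 * w.im * q.im) := by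
      field_simp
    rw [e5, Complex.normSq_apply, Complex.normSq_apply, e1, e2]
    ring
  rw [e] at h3
  exact h3

theorem ee_ph (ζ : ℂ) (t : ℝ) : ee t * qq ζ t = (‖qq ζ t‖ : ℂ) * ee (ph ζ t) := by
  have h1 : (‖qq ζ t‖ : ℂ) * Complex.exp ((Complex.arg (qq ζ t) : ℂ) * Complex.I) = qq ζ t :=
    Complex.norm_mul_exp_arg_mul_I _
  have h2 : ee (ph ζ t) = ee t * Complex.exp ((Complex.arg (qq ζ t) : ℂ) * Complex.I) := by
    unfold ph
    rw [ee_add, Complex.log_im]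
    rfl
  rw [h2]
  calc ee t * qq ζ t
      = ee t * ((‖qq ζ t‖ : ℂ) * Complex.exp ((Complex.arg (qq ζ t) : ℂ) * Complex.I)) := by
        rw [h1]
    _ = _ := by ring

theorem ee_two (t : ℝ) : ee (-2 * t) = (starRingEnd ℂ) (ee t) * (starRingEnd ℂ) (ee t) := by
  rw [← ee_neg, ← ee_add]
  congr 1
  ring

/-- the key identity `‖1 - ζ ee (-2 φ)‖ = D / ‖q‖` -/
theorem key_norm (ζ : ℂ) (hζ : ‖ζ‖ < 1) (t : ℝ) :
    ‖1 - ζ * ee (-2 * ph ζ t)‖ = (1 - ‖ζ‖ ^ 2) / ‖qq ζ t‖ := by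
  have hq := qq_ne ζ hζ t
  have hqn : (‖qq ζ t‖ : ℂ) ≠ 0 := by exact_mod_cast norm_ne_zero_iff.mpr hq
  have hee := ee_ph ζ t
  -- `ee φ = ee t * q / ‖q‖`
  have h1 : ee (ph ζ t) = ee t * qq ζ t / (‖qq ζ t‖ : ℂ) := by
    rw [hee, mul_div_cancel_left₀ _ hqn]
  have h2 : (starRingEnd ℂ) (ee (ph ζ t))
      = (starRingEnd ℂ) (ee t) * (starRingEnd ℂ) (qq ζ t) / (‖qq ζ t‖ : ℂ) := by
    rw [h1, map_div₀, map_mul, Complex.conj_ofReal]
  have h3 : (‖qq ζ t‖ : ℂ) ^ 2 = qq ζ t * (starRingEnd ℂ) (qq ζ t) := by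
    rw [Complex.mul_conj, ← Complex.sq_norm]
    push_cast
    rfl
  have hcq : (starRingEnd ℂ) (qq ζ t) ≠ 0 := by
    rw [Ne, map_eq_zero]
    exact hq
  have h4 : ee (-2 * ph ζ t) = ee (-2 * t) * (starRingEnd ℂ) (qq ζ t) / qq ζ t := by
    rw [ee_two, h2, ee_two t]
    have e : (starRingEnd ℂ) (ee t) * (starRingEnd ℂ) (qq ζ t) / (‖qq ζ t‖ : ℂ) *
        ((starRingEnd ℂ) (ee t) * (starRingEnd ℂ) (qq ζ t) / (‖qq ζ t‖ : ℂ))
        = (starRingEnd ℂ) (ee t) * (starRingEnd ℂ) (ee t) *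
          ((starRingEnd ℂ) (qq ζ t) * (starRingEnd ℂ) (qq ζ t)) / (‖qq ζ t‖ : ℂ) ^ 2 := by
      ring
    rw [e, h3]
    field_simp
  have h5 : (starRingEnd ℂ) (qq ζ t) = 1 + (starRingEnd ℂ) (ζ * ee (-2 * t)) := by
    unfold qq
    rw [map_add, map_one]
  have h6 : 1 - ζ * ee (-2 * ph ζ t) = ((1 - ‖ζ‖ ^ 2 : ℝ) : ℂ) / qq ζ t := by
    rw [h4, eq_div_iff hq]
    have h7 : (ζ * ee (-2 * t)) * (starRingEnd ℂ) (ζ * ee (-2 * t)) = ((‖ζ‖ ^ 2 : ℝ) : ℂ) := by
      rw [Complex.mul_conj, ← Complex.sq_norm, norm_mul, norm_ee, mul_one]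
    have h8 : (1 - ζ * (ee (-2 * t) * (starRingEnd ℂ) (qq ζ t) / qq ζ t)) * qq ζ t
        = qq ζ t - (ζ * ee (-2 * t)) * (starRingEnd ℂ) (qq ζ t) := by
      field_simp
    rw [h8, h5, mul_add, h7]
    unfold qq
    push_cast
    ring
  rw [h6, norm_div, Complex.norm_real, Real.norm_eq_abs, abs_of_nonneg]
  have : ‖ζ‖ ^ 2 ≤ 1 := by
    rw [sq_le_one_iff₀ (norm_nonneg _)]
    exact hζ.le
  linarith

theorem one_sub_pos (ζ : ℂ) (hζ : ‖ζ‖ < 1) (s : ℝ) : 0 < ‖1 - ζ * ee (-2 * s)‖ := by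
  rw [norm_pos_iff, sub_ne_zero]
  intro h
  have h1 := congrArg norm h
  rw [norm_one, norm_mul, norm_ee, mul_one] at h1
  linarith

theorem per2 (s : ℝ) : ee (-2 * (s + 2 * Real.pi)) = ee (-2 * s) := by
  have h2 := ee_int (-2) s
  push_cast at h2
  exact h2

/-- the change of variables -/
theorem change {K : Set ℂ} (hne : K.Nonempty) {R : ℝ} (hR : ∀ z ∈ K, ‖z‖ ≤ R) (ζ : ℂ)
    (hζ : ‖ζ‖ < 1) :
    ∫ t in (0 : ℝ)..(2 * Real.pi), sp K (ee t + ζ * ee (-t))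
      = ∫ s in (0 : ℝ)..(2 * Real.pi),
        sp K (ee s) * ((1 - ‖ζ‖ ^ 2) ^ 2 / ‖1 - ζ * ee (-2 * s)‖ ^ 3) := by
  have hD : 0 < 1 - ‖ζ‖ ^ 2 := by
    have : ‖ζ‖ ^ 2 < 1 := by
      rw [sq_lt_one_iff₀ (norm_nonneg _)]
      exact hζ
    linarith
  set g : ℝ → ℝ := fun s =>
    sp K (ee s) * ((1 - ‖ζ‖ ^ 2) ^ 2 / ‖1 - ζ * ee (-2 * s)‖ ^ 3) with hg
  have hgc : Continuous g := by
    have hc2 : Continuous fun s : ℝ => ee (-2 * s) := continuous_ee.comp (by fun_prop)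
    have hden : Continuous fun s : ℝ => ‖1 - ζ * ee (-2 * s)‖ ^ 3 :=
      ((continuous_const.sub (continuous_const.mul hc2)).norm).pow 3
    exact ((sp_cont hne hR).comp continuous_ee).mul
      (continuous_const.div hden fun s => (pow_pos (one_sub_pos ζ hζ s) 3).ne')
  have hgp : Function.Periodic g (2 * Real.pi) := by
    intro s
    simp only [hg]
    rw [ee_per, per2]
  have hsub := intervalIntegral.integral_comp_mul_deriv (a := 0) (b := 2 * Real.pi)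
    (f := ph ζ) (f' := fun t => (1 - ‖ζ‖ ^ 2) / ‖qq ζ t‖ ^ 2) (g := g)
    (fun t _ => ph_deriv ζ hζ t)
    ((continuous_const.div ((qq_cont ζ).norm.pow 2) fun t =>
      (pow_pos (norm_pos_iff.mpr (qq_ne ζ hζ t)) 2).ne').continuousOn) hgc
  have hend : ph ζ (2 * Real.pi) = ph ζ 0 + 2 * Real.pi := by
    have h := qq_per ζ 0
    rw [zero_add] at h
    unfold ph
    rw [h]
    ring
  rw [hend, hgp.intervalIntegral_add_eq (ph ζ 0) 0, zero_add] at hsub
  rw [← hsub]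
  apply intervalIntegral.integral_congr
  intro t _
  have hq := norm_pos_iff.mpr (qq_ne ζ hζ t)
  have h1 : ee t + ζ * ee (-t) = ee t * qq ζ t := by
    unfold qq
    have h2 : ee (-t) = ee t * ee (-2 * t) := by
      rw [← ee_add]
      congr 1
      ring
    rw [h2]
    ring
  show sp K (ee t + ζ * ee (-t)) = g (ph ζ t) * ((1 - ‖ζ‖ ^ 2) / ‖qq ζ t‖ ^ 2)
  rw [h1, ee_ph, sp_smul hne hR _ hq]
  simp only [hg]
  rw [key_norm ζ hζ t]
  field_simp

/-! ### the elementary inequality -/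

theorem inv_cube (r : ℝ) (hr : 1 / 2 ≤ r) :
    1 / r ^ 3 ≤ 1 + 3 / 2 * (1 - r ^ 2) + 16 * (1 - r ^ 2) ^ 2 := by
  have hr0 : 0 < r := by linarith
  rw [div_le_iff₀ (by positivity)]
  have key : (1 + 3 / 2 * (1 - r ^ 2) + 16 * (1 - r ^ 2) ^ 2) * r ^ 3 - 1
      = (r - 1) ^ 2 * (16 * r ^ 3 * (1 + r) ^ 2 - (3 * r ^ 3 + 6 * r ^ 2 + 4 * r + 2) / 2) := by
    ring
  have h2 : 0 ≤ 16 * r ^ 3 * (1 + r) ^ 2 - (3 * r ^ 3 + 6 * r ^ 2 + 4 * r + 2) / 2 := by
    have h3 : 1 / 8 ≤ r ^ 3 := by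
      calc (1 / 8 : ℝ) = (1 / 2) ^ 3 := by norm_num
        _ ≤ r ^ 3 := pow_le_pow_left₀ (by norm_num) hr 3
    have h4 : 16 * r ^ 3 * (1 + r) ^ 2
        = 16 * r ^ 3 + 32 * r * r ^ 3 + 16 * r ^ 2 * r ^ 3 := by ring
    have h5 : 32 * r * (1 / 8) ≤ 32 * r * r ^ 3 :=
      mul_le_mul_of_nonneg_left h3 (by positivity)
    have h6 : 16 * r ^ 2 * (1 / 8) ≤ 16 * r ^ 2 * r ^ 3 :=
      mul_le_mul_of_nonneg_left h3 (by positivity)
    have h7 : 0 ≤ (2 * r - 1) * r ^ 2 := mul_nonneg (by linarith) (sq_nonneg r)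
    nlinarith
  nlinarith [mul_nonneg (sq_nonneg (r - 1)) h2]

theorem kernel_le (τ : ℂ) (hτ : ‖τ‖ = 1) (ε : ℝ) (h0 : 0 < ε) (h1 : ε ≤ 1 / 2) (s : ℝ) :
    1 / ‖1 - (ε : ℂ) * τ * ee (-2 * s)‖ ^ 3
      ≤ 1 + 3 * ε * (τ * ee (-2 * s)).re + 100 * ε ^ 2 := by
  set u : ℂ := τ * ee (-2 * s) with hu
  have hun : ‖u‖ = 1 := by rw [hu, norm_mul, hτ, norm_ee, mul_one]
  have e1 : (ε : ℂ) * τ * ee (-2 * s) = (ε : ℂ) * u := by rw [hu]; ring
  rw [e1]
  have hns : ‖1 - (ε : ℂ) * u‖ ^ 2 = 1 - 2 * ε * u.re + ε ^ 2 := by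
    have h2 : u.re ^ 2 + u.im ^ 2 = 1 := by
      have h3 := Complex.sq_norm u
      rw [hun, Complex.normSq_apply] at h3
      linarith
    rw [Complex.sq_norm, Complex.normSq_apply]
    simp only [Complex.sub_re, Complex.one_re, Complex.re_ofReal_mul, Complex.sub_im,
      Complex.one_im, Complex.im_ofReal_mul]
    linear_combination ε ^ 2 * h2
  have hr : 1 / 2 ≤ ‖1 - (ε : ℂ) * u‖ := by
    have h2 := norm_sub_norm_le (1 : ℂ) ((ε : ℂ) * u)
    rw [norm_one, norm_mul, hun, mul_one, Complex.norm_real, Real.norm_eq_abs,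
      abs_of_pos h0] at h2
    linarith
  have h3 := inv_cube _ hr
  rw [hns] at h3
  have hre : |u.re| ≤ 1 := by
    rw [← hun]
    exact Complex.abs_re_le_norm u
  obtain ⟨ha, hb⟩ := abs_le.mp hre
  have h4 : (1 - (1 - 2 * ε * u.re + ε ^ 2)) ^ 2 ≤ 25 / 4 * ε ^ 2 := by
    have e2 : 1 - (1 - 2 * ε * u.re + ε ^ 2) = ε * (2 * u.re - ε) := by ring
    rw [e2, mul_pow]
    have h5 : (2 * u.re - ε) ^ 2 ≤ 25 / 4 := by
      rw [show (25 / 4 : ℝ) = (5 / 2) ^ 2 by norm_num]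
      apply sq_le_sq'
      · linarith
      · linarith
    nlinarith [mul_le_mul_of_nonneg_left h5 (sq_nonneg ε)]
  nlinarith [sq_nonneg ε]

/-! ### the first order condition -/

theorem hPOB : StPob := by
  intro K hK h0i hmin
  obtain ⟨hconv, hcomp, hint⟩ := hK
  have h0 : (0 : ℂ) ∈ K := interior_subset h0i
  have hne : K.Nonempty := ⟨0, h0⟩
  obtain ⟨R, hR'⟩ := hcomp.isBounded.subset_closedBall (0 : ℂ)
  have hR : ∀ z ∈ K, ‖z‖ ≤ R := fun z hz => by
    have := hR' hz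
    rwa [mem_closedBall_zero_iff] at this
  have hspc := sp_cont hne hR
  have hhc : Continuous fun t : ℝ => sp K (ee t) := hspc.comp continuous_ee
  have hc2 : Continuous fun s : ℝ => ee (-2 * s) := continuous_ee.comp (by fun_prop)
  have hpi : (0 : ℝ) ≤ 2 * Real.pi := by positivity
  set A : ℝ := ∫ t in (0 : ℝ)..(2 * Real.pi), sp K (ee t) with hA
  set W : ℂ := ∫ t in (0 : ℝ)..(2 * Real.pi), (sp K (ee t) : ℂ) * ee (-2 * t) with hW
  -- the inequality for small ε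
  have key : ∀ τ : ℂ, ‖τ‖ = 1 → ∀ ε : ℝ, 0 < ε → ε ≤ 1 / 2 →
      0 ≤ 3 * (τ * W).re + 100 * ε * A := by
    intro τ hτ ε he0 he1
    set ζ : ℂ := (ε : ℂ) * τ with hζdef
    have hζn : ‖ζ‖ = ε := by
      rw [hζdef, norm_mul, hτ, mul_one, Complex.norm_real, Real.norm_eq_abs, abs_of_pos he0]
    have hζ1 : ‖ζ‖ < 1 := by rw [hζn]; linarith
    set D : ℝ := 1 - ‖ζ‖ ^ 2 with hDdef
    have hD0 : 0 < D := by
      rw [hDdef, hζn]
      nlinarith
    have hD1 : D ≤ 1 := by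
      rw [hDdef]
      nlinarith [sq_nonneg ‖ζ‖]
    have hsD : 0 < Real.sqrt D := Real.sqrt_pos.mpr hD0
    have hsD2 : Real.sqrt D ^ 2 = D := Real.sq_sqrt hD0.le
    have hsD1 : Real.sqrt D ≤ 1 := by
      rw [Real.sqrt_le_one]
      exact hD1
    set c : ℝ := (Real.sqrt D)⁻¹ with hcdef
    have hc0 : 0 < c := inv_pos.mpr hsD
    have hc2' : c ^ 2 * D = 1 := by
      rw [hcdef, inv_pow, hsD2, inv_mul_cancel₀ hD0.ne']
    have hα : ‖(c : ℂ)‖ ^ 2 - ‖(c : ℂ) * ζ‖ ^ 2 = 1 := by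
      rw [norm_mul, Complex.norm_real, Real.norm_eq_abs, abs_of_pos hc0]
      rw [hDdef] at hc2'
      nlinarith
    have h1 := hmin (c : ℂ) ((c : ℂ) * ζ) hα
    have h2 : ∫ t in (0 : ℝ)..(2 * Real.pi),
        sp K ((starRingEnd ℂ) (c : ℂ) * ee t + (c : ℂ) * ζ * ee (-t))
        = c * ∫ t in (0 : ℝ)..(2 * Real.pi), sp K (ee t + ζ * ee (-t)) := by
      rw [← intervalIntegral.integral_const_mul]
      apply intervalIntegral.integral_congr
      intro t _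
      show sp K ((starRingEnd ℂ) (c : ℂ) * ee t + (c : ℂ) * ζ * ee (-t))
        = c * sp K (ee t + ζ * ee (-t))
      rw [Complex.conj_ofReal, ← sp_smul hne hR c hc0]
      congr 1
      ring
    rw [h2, change hne hR ζ hζ1, ← hDdef, ← intervalIntegral.integral_const_mul] at h1
    -- pointwise bound
    have hker : ∀ s : ℝ, c * (sp K (ee s) * (D ^ 2 / ‖1 - ζ * ee (-2 * s)‖ ^ 3))
        ≤ sp K (ee s) * (1 + 3 * ε * (τ * ee (-2 * s)).re + 100 * ε ^ 2) := by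
      intro s
      have hsp := sp_nonneg h0 hR (ee s)
      have hk := kernel_le τ hτ ε he0 he1 s
      rw [← hζdef] at hk
      have hpos := one_sub_pos ζ hζ1 s
      have h3 : c * D ^ 2 ≤ 1 := by
        have h4 : c * D ^ 2 = Real.sqrt D * D := by
          have h40 : D ^ 2 = Real.sqrt D * (Real.sqrt D * D) := by
            rw [← mul_assoc, ← sq, hsD2, sq]
          rw [h40, ← mul_assoc, hcdef, inv_mul_cancel₀ hsD.ne', one_mul]
        rw [h4]
        calc Real.sqrt D * D ≤ 1 * 1 := mul_le_mul hsD1 hD1 hD0.le (by norm_num)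
          _ = 1 := one_mul 1
      have h5 : c * (D ^ 2 / ‖1 - ζ * ee (-2 * s)‖ ^ 3) ≤ 1 / ‖1 - ζ * ee (-2 * s)‖ ^ 3 := by
        rw [← mul_div_assoc]
        exact div_le_div_of_nonneg_right h3 (by positivity)
      calc c * (sp K (ee s) * (D ^ 2 / ‖1 - ζ * ee (-2 * s)‖ ^ 3))
          = sp K (ee s) * (c * (D ^ 2 / ‖1 - ζ * ee (-2 * s)‖ ^ 3)) := by ring
        _ ≤ sp K (ee s) * (1 + 3 * ε * (τ * ee (-2 * s)).re + 100 * ε ^ 2) :=
            mul_le_mul_of_nonneg_left (h5.trans hk) hsp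
    have hre : Continuous fun s : ℝ => (τ * ee (-2 * s)).re :=
      Complex.continuous_re.comp (continuous_const.mul hc2)
    have hint1 : IntervalIntegrable
        (fun s => c * (sp K (ee s) * (D ^ 2 / ‖1 - ζ * ee (-2 * s)‖ ^ 3))) volume 0
        (2 * Real.pi) := by
      apply Continuous.intervalIntegrable
      exact continuous_const.mul (hhc.mul (continuous_const.div
        ((continuous_const.sub (continuous_const.mul hc2)).norm.pow 3)
        fun s => (pow_pos (one_sub_pos ζ hζ1 s) 3).ne'))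
    have hint2 : IntervalIntegrable
        (fun s => sp K (ee s) * (1 + 3 * ε * (τ * ee (-2 * s)).re + 100 * ε ^ 2)) volume 0
        (2 * Real.pi) := by
      apply Continuous.intervalIntegrable
      exact hhc.mul ((continuous_const.add (continuous_const.mul hre)).add continuous_const)
    have h6 := intervalIntegral.integral_mono hpi hint1 hint2 hker
    have h7 : ∫ s in (0 : ℝ)..(2 * Real.pi),
        sp K (ee s) * (1 + 3 * ε * (τ * ee (-2 * s)).re + 100 * ε ^ 2)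
        = (1 + 100 * ε ^ 2) * A + 3 * ε * (τ * W).re := by
      have h8 : (τ * W).re = ∫ s in (0 : ℝ)..(2 * Real.pi),
          sp K (ee s) * (τ * ee (-2 * s)).re := by
        rw [hW, ← intervalIntegral.integral_const_mul]
        have hi : IntervalIntegrable (fun s : ℝ => τ * ((sp K (ee s) : ℂ) * ee (-2 * s)))
            volume 0 (2 * Real.pi) := by
          apply Continuous.intervalIntegrable
          exact continuous_const.mul ((Complex.continuous_ofReal.comp hhc).mul hc2)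
        have h9 := Complex.reCLM.intervalIntegral_comp_comm hi
        have h10 : (∫ s in (0 : ℝ)..(2 * Real.pi), τ * ((sp K (ee s) : ℂ) * ee (-2 * s))).re
            = ∫ s in (0 : ℝ)..(2 * Real.pi),
              Complex.reCLM (τ * ((sp K (ee s) : ℂ) * ee (-2 * s))) := h9.symm
        rw [h10]
        apply intervalIntegral.integral_congr
        intro s _
        show (τ * ((sp K (ee s) : ℂ) * ee (-2 * s))).re = sp K (ee s) * (τ * ee (-2 * s)).re
        rw [← Complex.re_ofReal_mul]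
        congr 1
        ring
      have hi1 : IntervalIntegrable (fun s : ℝ => (1 + 100 * ε ^ 2) * sp K (ee s)) volume 0
          (2 * Real.pi) := (continuous_const.mul hhc).intervalIntegrable _ _
      have hi2 : IntervalIntegrable
          (fun s : ℝ => 3 * ε * (sp K (ee s) * (τ * ee (-2 * s)).re)) volume 0
          (2 * Real.pi) := (continuous_const.mul (hhc.mul hre)).intervalIntegrable _ _
      rw [h8, hA, ← intervalIntegral.integral_const_mul, ← intervalIntegral.integral_const_mul,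
        ← intervalIntegral.integral_add hi1 hi2]
      apply intervalIntegral.integral_congr
      intro s _
      show sp K (ee s) * (1 + 3 * ε * (τ * ee (-2 * s)).re + 100 * ε ^ 2)
        = (1 + 100 * ε ^ 2) * sp K (ee s) + 3 * ε * (sp K (ee s) * (τ * ee (-2 * s)).re)
      ring
    rw [h7] at h6
    have h11 : A ≤ (1 + 100 * ε ^ 2) * A + 3 * ε * (τ * W).re := h1.trans h6
    have h12 : 0 ≤ ε * (3 * (τ * W).re + 100 * ε * A) := by nlinarith
    exact nonneg_of_mul_nonneg_right h12 he0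
  -- the limit
  have hA0 : 0 ≤ A := intervalIntegral.integral_nonneg hpi fun t _ => sp_nonneg h0 hR (ee t)
  have key2 : ∀ τ : ℂ, ‖τ‖ = 1 → 0 ≤ (τ * W).re := by
    intro τ hτ
    by_contra hneg
    push Not at hneg
    set m : ℝ := -(τ * W).re with hm
    have hm0 : 0 < m := by linarith
    set ε : ℝ := min (1 / 2) (m / (100 * (A + 1))) with hε
    have he0 : 0 < ε := lt_min (by norm_num) (by positivity)
    have h := key τ hτ ε he0 (min_le_left _ _)
    have h1 : ε ≤ m / (100 * (A + 1)) := min_le_right _ _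
    rw [le_div_iff₀ (by positivity)] at h1
    nlinarith
  have hW0 : W = 0 := by
    by_contra hne0
    have hn : 0 < ‖W‖ := norm_pos_iff.mpr hne0
    have hnc : (‖W‖ : ℂ) ≠ 0 := by exact_mod_cast hn.ne'
    have h := key2 (-((starRingEnd ℂ) W / (‖W‖ : ℂ))) (by
      rw [norm_neg, norm_div, Complex.norm_conj, Complex.norm_real, Real.norm_eq_abs,
        abs_of_pos hn, div_self hn.ne'])
    have e : -((starRingEnd ℂ) W / (‖W‖ : ℂ)) * W = ((-‖W‖ : ℝ) : ℂ) := by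
      have e1 : (starRingEnd ℂ) W * W = (‖W‖ : ℂ) ^ 2 := by
        rw [mul_comm, Complex.mul_conj, ← Complex.sq_norm]
        push_cast
        rfl
      have e2 : -((starRingEnd ℂ) W / (‖W‖ : ℂ)) * W
          = -(((starRingEnd ℂ) W * W) / (‖W‖ : ℂ)) := by ring
      rw [e2, e1]
      push_cast
      field_simp
    rw [e, Complex.ofReal_re] at h
    linarith
  unfold hf
  have e : ∫ t in (0 : ℝ)..(2 * Real.pi), (sp K (ee t) : ℂ) * ee (-((2 : ℕ) : ℝ) * t) = W := by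
    rw [hW]
    apply intervalIntegral.integral_congr
    intro t _
    show (sp K (ee t) : ℂ) * ee (-((2 : ℕ) : ℝ) * t) = (sp K (ee t) : ℂ) * ee (-2 * t)
    norm_num
  rw [e, hW0, mul_zero]

end Pool.Agent.Helper36.RC
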