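import Pool.Agent.Helper49.RC.StS
import Pool.Agent.Helper61.RC.M_SEL
import Pool.Agent.Helper16.RC.M_RGN

/-!
Project RC (MP_b21509_co), module SELS: the parameters of the gauge S as step functions.
-/

set_option autoImplicit false

open MeasureTheory Set Filter Metric

namespace Pool.Agent.Helper36.RC

open Helper97.CB Helper49.LT Helper49.RC
open Pool.Agent.Helper61.RC (sp_lip norm_ee_sub ee_int_pi)
open Pool.Agent.Helper16.RC (T4 core2 coords)

/-- the functional in terms of `T4` -/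
theorem PhG_eq (K : Set ℂ) (t : ℝ) (a c p : ℂ) :
    PhG K t a c p = (1 / 3) * (sp K (ee t * a) + sp K (-(ee t * a)) +
      T4 (fun z => sp K (ee t * z)) (c + 1 / 2 * a) (c - 1 / 2 * a) p) := by
  have e3 : -(ee t * (c + 1 / 2 * a + -p)) = ee t * (-(c + 1 / 2 * a) + p) := by ring
  have e4 : -(ee t * (c - 1 / 2 * a - -p)) = ee t * (-(c - 1 / 2 * a) - p) := by ring
  unfold PhG T4
  rw [e3, e4]
  ring

theorem sp_ge (K : Set ℂ) (hK : IsCompact K) (ρ : ℝ) (hρ : 0 < ρ)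
    (hball : closedBall (0 : ℂ) ρ ⊆ K) (q : ℂ) : ρ * ‖q‖ ≤ sp K q := by
  by_cases hq : q = 0
  · rw [hq, norm_zero, mul_zero]
    exact Pool.Agent.Helper61.RC.sp_nonneg K hK (hball (mem_closedBall_self hρ.le)) 0
  · have hn : 0 < ‖q‖ := norm_pos_iff.2 hq
    have hz : (((ρ / ‖q‖ : ℝ) : ℂ) * q) ∈ K := by
      apply hball
      rw [mem_closedBall_zero_iff, norm_mul, Complex.norm_real, Real.norm_eq_abs,
        abs_of_pos (by positivity)]
      rw [div_mul_cancel₀ _ hn.ne']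
    have h1 := Pool.Agent.Helper61.RC.le_sp K hK q _ hz
    have h2 : (((ρ / ‖q‖ : ℝ) : ℂ) * q * (starRingEnd ℂ) q).re = ρ * ‖q‖ := by
      rw [mul_assoc, Complex.mul_conj, Complex.normSq_eq_norm_sq, ← Complex.ofReal_mul,
        Complex.ofReal_re]
      field_simp
    rwa [h2] at h1

theorem norm_aS (b : ℝ) (hb : |b| < 1) : ‖aS b‖ = 1 + b := by
  have h := abs_lt.1 hb
  unfold aS
  rw [← Complex.ofReal_one, ← Complex.ofReal_add, Complex.norm_real, Real.norm_eq_abs,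
    abs_of_pos (by linarith)]

theorem norm_cS_im (b y : ℝ) (hb : |b| < 1) : Real.sqrt 3 / 2 * (1 - b) ≤ ‖cS b y‖ := by
  have h := abs_lt.1 hb
  have h1 := Complex.abs_im_le_norm (cS b y)
  have h2 : (cS b y).im = Real.sqrt 3 / 2 * (1 - b) := by
    unfold cS
    have e : (Real.sqrt 3 / 2 : ℂ) = ((Real.sqrt 3 / 2 : ℝ) : ℂ) := by push_cast; rfl
    rw [e, Complex.im_ofReal_mul]
    simp
  rw [h2] at h1
  exact (le_abs_self _).trans h1

theorem norm_cS_re (b y : ℝ) : Real.sqrt 3 / 2 * |y| ≤ ‖cS b y‖ := by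
  have h1 := Complex.abs_re_le_norm (cS b y)
  have h2 : (cS b y).re = Real.sqrt 3 / 2 * y := by
    unfold cS
    have e : (Real.sqrt 3 / 2 : ℂ) = ((Real.sqrt 3 / 2 : ℝ) : ℂ) := by push_cast; rfl
    rw [e, Complex.re_ofReal_mul]
    simp
  rw [h2, abs_mul, abs_of_nonneg (by positivity)] at h1
  exact h1

theorem sqrt3_bounds : 1 ≤ Real.sqrt 3 ∧ Real.sqrt 3 ≤ 2 ∧ Real.sqrt 3 ^ 2 = 3 := by
  refine ⟨?_, ?_, Real.sq_sqrt (by norm_num)⟩
  · rw [Real.one_le_sqrt]; norm_num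
  · rw [Real.sqrt_le_left (by norm_num)]; norm_num

theorem norm_cS_le (b y : ℝ) (hb : |b| < 1) : ‖cS b y‖ ≤ 2 + |y| := by
  have h := abs_lt.1 hb
  obtain ⟨h1, h2, _⟩ := sqrt3_bounds
  unfold cS
  have e : (Real.sqrt 3 / 2 : ℂ) = ((Real.sqrt 3 / 2 : ℝ) : ℂ) := by push_cast; rfl
  have e2 : ‖Complex.I * (1 - (b : ℂ))‖ = 1 - b := by
    rw [norm_mul, Complex.norm_I, one_mul, ← Complex.ofReal_one, ← Complex.ofReal_sub,
      Complex.norm_real, Real.norm_eq_abs, abs_of_pos (by linarith)]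
  have e3 : ‖(y : ℂ)‖ = |y| := by rw [Complex.norm_real, Real.norm_eq_abs]
  have h3 : ‖Complex.I * (1 - (b : ℂ)) + (y : ℂ)‖ ≤ (1 - b) + |y| := by
    refine (norm_add_le _ _).trans ?_
    rw [e2, e3]
  rw [norm_mul, e, Complex.norm_real, Real.norm_eq_abs, abs_of_nonneg (by positivity)]
  have h4 : 0 ≤ ‖Complex.I * (1 - (b : ℂ)) + (y : ℂ)‖ := norm_nonneg _
  have hy := abs_nonneg y
  nlinarith

/-- the lower bounds -/
theorem PhG_ge (K : Set ℂ) (hK : IsCompact K) (ρ : ℝ) (hρ : 0 < ρ)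
    (hball : closedBall (0 : ℂ) ρ ⊆ K) (t b y : ℝ) (hb : |b| < 1) (z : ℂ) :
    4 * ρ / 3 ≤ PhG K t (aS b) (cS b y) z ∧ ρ * |y| ≤ PhG K t (aS b) (cS b y) z := by
  have hg := sp_ge K hK ρ hρ hball
  obtain ⟨s1, s2, s3⟩ := sqrt3_bounds
  have hb' := abs_lt.1 hb
  set a := aS b with ha
  set c := cS b y with hc
  have na : ‖a‖ = 1 + b := norm_aS b hb
  have key : ρ / 3 * (2 * ‖a‖ + 4 * ‖c‖) ≤ PhG K t a c z := by
    have ne : ∀ q : ℂ, ‖ee t * q‖ = ‖q‖ := fun q => by rw [norm_mul, norm_ee, one_mul]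
    have a0 := hg (ee t * a)
    have a1 := hg (ee t * (c + 1 / 2 * a + z))
    have a2 := hg (ee t * (c - 1 / 2 * a - z))
    have a3 := hg (-(ee t * a))
    have a4 := hg (-(ee t * (c + 1 / 2 * a + -z)))
    have a5 := hg (-(ee t * (c - 1 / 2 * a - -z)))
    rw [norm_neg, ne] at a3 a4 a5
    rw [ne] at a0 a1 a2
    have h1 : 2 * ‖c‖ + 2 * ‖c‖ ≤ ‖c + 1 / 2 * a + z‖ + ‖c - 1 / 2 * a - z‖
        + ‖c + 1 / 2 * a + -z‖ + ‖c - 1 / 2 * a - -z‖ := by
      have i1 := norm_add_le (c + 1 / 2 * a + z) (c - 1 / 2 * a - z)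
      have i2 := norm_add_le (c + 1 / 2 * a + -z) (c - 1 / 2 * a - -z)
      have j1 : (c + 1 / 2 * a + z) + (c - 1 / 2 * a - z) = 2 * c := by ring
      have j2 : (c + 1 / 2 * a + -z) + (c - 1 / 2 * a - -z) = 2 * c := by ring
      have j3 : ‖2 * c‖ = 2 * ‖c‖ := by rw [norm_mul]; simp
      rw [j1, j3] at i1
      rw [j2, j3] at i2
      linarith
    have h2 := mul_le_mul_of_nonneg_left h1 hρ.le
    unfold PhG
    linarith
  have c1 := norm_cS_im b y hb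
  have c2 := norm_cS_re b y
  constructor
  · refine le_trans ?_ key
    have h3 : 4 ≤ 2 * ‖a‖ + 4 * ‖c‖ := by
      rw [na]
      nlinarith
    have h4 := mul_le_mul_of_nonneg_left h3 (by positivity : (0 : ℝ) ≤ ρ / 3)
    linarith
  · refine le_trans ?_ key
    have hy := abs_nonneg y
    have h5 : 3 * |y| ≤ 2 * ‖a‖ + 4 * ‖c‖ := by
      have h6 : (3 / 2 : ℝ) ≤ Real.sqrt 3 := by
        rw [Real.le_sqrt' (by norm_num)]; norm_num
      have h7 := norm_nonneg a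
      nlinarith
    have h4 := mul_le_mul_of_nonneg_left h5 (by positivity : (0 : ℝ) ≤ ρ / 3)
    linarith

/-- change of the direction -/
theorem PhG_t (K : Set ℂ) (hK : IsCompact K) (h0 : (0 : ℂ) ∈ K) (R : ℝ)
    (hR : ∀ z ∈ K, ‖z‖ ≤ R) (hR0 : 0 ≤ R) (t t' : ℝ) (a c p : ℂ) (D : ℝ)
    (hD : ‖c‖ + ‖a‖ + ‖p‖ ≤ D) :
    PhG K t' a c p ≤ PhG K t a c p + 2 * R * D * |t' - t| := by
  have hl := sp_lip K hK h0 R hR
  have na := norm_nonneg a
  have nc := norm_nonneg c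
  have np := norm_nonneg p
  have a0 := hl (ee t' * a) (ee t * a)
  have a1 := hl (ee t' * (c + 1 / 2 * a + p)) (ee t * (c + 1 / 2 * a + p))
  have a2 := hl (ee t' * (c - 1 / 2 * a - p)) (ee t * (c - 1 / 2 * a - p))
  have a3 := hl (-(ee t' * a)) (-(ee t * a))
  have a4 := hl (-(ee t' * (c + 1 / 2 * a + -p))) (-(ee t * (c + 1 / 2 * a + -p)))
  have a5 := hl (-(ee t' * (c - 1 / 2 * a - -p))) (-(ee t * (c - 1 / 2 * a - -p)))
  have n : ∀ x y : ℂ, ‖-x - -y‖ = ‖x - y‖ := by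
    intro x y; rw [neg_sub_neg, norm_sub_rev]
  rw [n] at a3 a4 a5
  have key : ∀ z : ℂ, ‖z‖ ≤ D → R * ‖ee t' * z - ee t * z‖ ≤ R * (D * |t' - t|) := by
    intro z hz
    apply mul_le_mul_of_nonneg_left _ hR0
    rw [← sub_mul, norm_mul, mul_comm]
    exact mul_le_mul hz (norm_ee_sub _ _) (norm_nonneg _) ((norm_nonneg _).trans hz)
  have hh : ‖(1 / 2 : ℂ) * a‖ ≤ ‖a‖ := by
    rw [norm_mul]
    have : ‖(1 / 2 : ℂ)‖ = 1 / 2 := by norm_num
    rw [this]
    linarith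
  have b1 : ∀ q : ℂ, ‖q‖ = ‖p‖ → ‖c + 1 / 2 * a + q‖ ≤ D := by
    intro q hq
    refine (norm_add₃_le).trans ?_
    rw [hq]
    linarith
  have b2 : ∀ q : ℂ, ‖q‖ = ‖p‖ → ‖c - 1 / 2 * a - q‖ ≤ D := by
    intro q hq
    refine (norm_sub_le _ _).trans ?_
    have := norm_sub_le c (1 / 2 * a)
    rw [hq]
    linarith
  have k0 := key a (by linarith)
  have k1 := key _ (b1 p rfl)
  have k2 := key _ (b2 p rfl)
  have k4 := key _ (b1 (-p) (norm_neg p))
  have k5 := key _ (b2 (-p) (norm_neg p))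
  unfold PhG
  nlinarith

theorem PhG_neg (K : Set ℂ) (t t' : ℝ) (h : ee t' = -ee t) (a c p : ℂ) :
    PhG K t' a c (-p) = PhG K t a c p := by
  unfold PhG
  rw [h, neg_neg]
  simp only [neg_mul, neg_neg]
  ring

theorem PhG_int (K : Set ℂ) (t : ℝ) (m : ℤ) (a c p : ℂ) :
    PhG K (t + (m : ℝ) * Real.pi) a c ((-1) ^ m * p) = PhG K t a c p := by
  have h : ee (t + (m : ℝ) * Real.pi) = (-1) ^ m * ee t := by
    rw [ee_add, ee_int_pi, mul_comm]
  rcases Int.even_or_odd m with hm | hm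
  · rw [hm.neg_one_zpow, one_mul] at h
    rw [hm.neg_one_zpow, one_mul]
    unfold PhG
    rw [h]
  · rw [hm.neg_one_zpow] at h
    rw [hm.neg_one_zpow, neg_one_mul]
    exact PhG_neg K t _ (by rw [h]; ring) a c p

/-- the region -/
def RgS (b y : ℝ) (z : ℂ) : Prop :=
  ∃ X Y : ℝ, |X| ≤ 1 / 2 ∧ |Y| ≤ 1 ∧ z = (X : ℂ) * aS b + (Y : ℂ) * cS b y

theorem RgS_int (b y : ℝ) (z : ℂ) (m : ℤ) (h : RgS b y z) : RgS b y ((-1) ^ m * z) := by
  rcases Int.even_or_odd m with hm | hm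
  · rw [hm.neg_one_zpow, one_mul]; exact h
  · rw [hm.neg_one_zpow, neg_one_mul]
    obtain ⟨X, Y, hX, hY, hz⟩ := h
    refine ⟨-X, -Y, by rwa [abs_neg], by rwa [abs_neg], ?_⟩
    rw [hz]; push_cast; ring

theorem cr_AB (b y : ℝ) : cr (cS b y + 1 / 2 * aS b) (cS b y - 1 / 2 * aS b)
    = Real.sqrt 3 / 2 * (1 - b ^ 2) := by
  have e : (Real.sqrt 3 / 2 : ℂ) = ((Real.sqrt 3 / 2 : ℝ) : ℂ) := by push_cast; rfl
  have hcr : (cS b y).re = Real.sqrt 3 / 2 * y := by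
    unfold cS
    rw [e, Complex.re_ofReal_mul]
    simp
  have hci : (cS b y).im = Real.sqrt 3 / 2 * (1 - b) := by
    unfold cS
    rw [e, Complex.im_ofReal_mul]
    simp
  have har : (aS b).re = 1 + b := by unfold aS; simp
  have hai : (aS b).im = 0 := by unfold aS; simp
  have h2 : (1 / 2 * aS b).re = (1 + b) / 2 := by
    have e2 : (1 / 2 : ℂ) = ((1 / 2 : ℝ) : ℂ) := by push_cast; rfl
    rw [e2, Complex.re_ofReal_mul, har]; ring
  have h3 : (1 / 2 * aS b).im = 0 := by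
    have e2 : (1 / 2 : ℂ) = ((1 / 2 : ℝ) : ℂ) := by push_cast; rfl
    rw [e2, Complex.im_ofReal_mul, hai]; ring
  unfold cr
  rw [Complex.add_re, Complex.add_im, Complex.sub_re, Complex.sub_im, hcr, hci, h2, h3]
  ring

/-- one direction: the vector in the region -/
theorem region (K : Set ℂ) (hB : IsBody K) (t b y : ℝ) (hb : |b| < 1) (z : ℂ) :
    ∃ z' : ℂ, RgS b y z' ∧ PhG K t (aS b) (cS b y) z' ≤ PhG K t (aS b) (cS b y) z := by
  have hb' := abs_lt.1 hb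
  obtain ⟨s1, s2, s3⟩ := sqrt3_bounds
  set A := cS b y + 1 / 2 * aS b with hA
  set B := cS b y - 1 / 2 * aS b with hBd
  have hne : cr A B ≠ 0 := by
    rw [hA, hBd, cr_AB]
    have h1 : 0 < 1 - b ^ 2 := by nlinarith
    positivity
  have hp := coords hne z
  have hreg : ∀ x x' : ℝ, |x| + |x'| ≤ 1 → RgS b y ((x : ℂ) * A + (x' : ℂ) * B) := by
    intro x x' hx
    have i1 := abs_nonneg x
    have i2 := abs_nonneg x'
    refine ⟨(x - x') / 2, x + x', ?_, ?_, ?_⟩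
    · rw [abs_div, abs_two]
      have := abs_sub x x'
      linarith
    · exact (abs_add_le x x').trans hx
    · rw [hA, hBd]
      push_cast
      ring
  by_cases hxy : |cr z B / cr A B| + |cr A z / cr A B| ≤ 1
  · refine ⟨z, ?_, le_refl _⟩
    have := hreg _ _ hxy
    rwa [← hp] at this
  · rw [not_le] at hxy
    have hadd : ∀ x y : ℂ, (fun z => sp K (ee t * z)) (x + y) ≤
        (fun z => sp K (ee t * z)) x + (fun z => sp K (ee t * z)) y := by
      intro x y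
      simp only [mul_add]
      exact Pool.Agent.Helper16.RC.sp_add hB _ _
    have hsm : ∀ c : ℝ, 0 ≤ c → ∀ x : ℂ, (fun z => sp K (ee t * z)) ((c : ℂ) * x) =
        c * (fun z => sp K (ee t * z)) x := by
      intro c hc x
      simp only [mul_left_comm (ee t)]
      exact Pool.Agent.Helper16.RC.sp_smul hB c hc _
    obtain ⟨x', y', h1, h2⟩ := core2 (H := fun z => sp K (ee t * z)) hadd hsm A B _ _ hxy
    rw [← hp] at h2
    refine ⟨(x' : ℂ) * A + (y' : ℂ) * B, hreg x' y' h1, ?_⟩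
    rw [PhG_eq, PhG_eq K t _ _ z]
    linarith

/-- **MODULE SELS.** -/
theorem hSELS : StSelS := by
  intro K C hB h0int hC hPhi ε₀ hε₀
  have hK := hB.2.1
  have h0 : (0 : ℂ) ∈ K := interior_subset h0int
  obtain ⟨ρ, hρ, hball⟩ := Metric.nhds_basis_closedBall.mem_iff.1
    (mem_interior_iff_mem_nhds.1 h0int)
  obtain ⟨R₀, hR₀⟩ := hK.isBounded.exists_norm_le
  set R : ℝ := max R₀ 0 with hRdef
  have hR0 : 0 ≤ R := le_max_right _ _
  have hR : ∀ z ∈ K, ‖z‖ ≤ R := fun z hz => (hR₀ z hz).trans (le_max_left _ _)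
  set ε : ℝ := min (ε₀ / 2) (ρ / 3) with hεdef
  have hε : 0 < ε := lt_min (by positivity) (by positivity)
  have hε1 : ε ≤ ε₀ / 2 := min_le_left _ _
  have hε2 : ε ≤ ρ / 3 := min_le_right _ _
  set Y0 : ℝ := (C + ρ) / ρ with hY0
  set δ : ℝ := (ρ / C) ^ 2 / 2 with hδ
  have hδ0 : 0 < δ := by positivity
  have hc : ∀ t : ℝ, ∃ q : ℝ × ℝ × ℂ, RgS q.1 q.2.1 q.2.2 ∧
      PhG K t (aS q.1) (cS q.1 q.2.1) q.2.2 ≤ C * Real.sqrt (1 - q.1 ^ 2) + ε ∧
      |q.1| < 1 ∧ |q.1| ≤ 1 - δ ∧ |q.2.1| ≤ Y0 := by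
    intro t
    obtain ⟨b, y, z, hb, hz⟩ := hPhi t ε hε
    obtain ⟨z', hz', hz2⟩ := region K hB t b y hb z
    obtain ⟨g1, g2⟩ := PhG_ge K hK ρ hρ hball t b y hb z
    refine ⟨(b, y, z'), hz', hz2.trans hz, hb, ?_, ?_⟩
    · show |b| ≤ 1 - δ
      have hb' := abs_lt.1 hb
      have h1 : ρ ≤ C * Real.sqrt (1 - b ^ 2) := by linarith
      have h2 : ρ / C ≤ Real.sqrt (1 - b ^ 2) := by
        rw [div_le_iff₀ hC]
        linarith
      have h3 : 0 ≤ 1 - b ^ 2 := by nlinarith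
      have h4 : (ρ / C) ^ 2 ≤ 1 - b ^ 2 := by
        have := pow_le_pow_left₀ (by positivity) h2 2
        rwa [Real.sq_sqrt h3] at this
      have h5 : δ ≤ 1 / 2 := by
        rw [hδ]
        nlinarith
      apply abs_le_of_sq_le_sq
      · have h6 : (ρ / C) ^ 2 = 2 * δ := by rw [hδ]; ring
        nlinarith
      · linarith
    · show |y| ≤ Y0
      rw [hY0, le_div_iff₀ hρ]
      have h1 : Real.sqrt (1 - b ^ 2) ≤ 1 := by
        rw [Real.sqrt_le_left (by norm_num)]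
        nlinarith
      have h2 : C * Real.sqrt (1 - b ^ 2) ≤ C := by nlinarith
      linarith
  choose c hc1 hc2 hc3 hc4 hc5 using hc
  set D : ℝ := 8 + 3 * Y0 with hD
  have hY0n : 0 ≤ Y0 := (abs_nonneg _).trans (hc5 0)
  have hD0 : 0 ≤ D := by positivity
  obtain ⟨N, hN⟩ := exists_nat_gt (4 * R * D * Real.pi / ε₀)
  have hpi := Real.pi_pos
  have hN0 : 0 < (N : ℝ) := by
    refine lt_of_le_of_lt ?_ hN
    positivity
  have hNpos : (0 : ℤ) < (N : ℤ) := by exact_mod_cast hN0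
  have hNε : 2 * R * D * (Real.pi / N) ≤ ε₀ / 2 := by
    rw [div_lt_iff₀ hε₀] at hN
    rw [mul_div_assoc', div_le_iff₀ hN0]
    nlinarith
  let fl : ℝ → ℤ := fun t => ⌊(N : ℝ) * t / Real.pi⌋
  have hfl : Measurable fl := Int.measurable_floor.comp (by fun_prop)
  let gb : ℤ → ℝ := fun j => (c (((j % (N : ℤ) : ℤ) : ℝ) * Real.pi / N)).1
  let gy : ℤ → ℝ := fun j => (c (((j % (N : ℤ) : ℤ) : ℝ) * Real.pi / N)).2.1
  let gp : ℤ → ℂ := fun j =>
    (-1) ^ (j / (N : ℤ)) * (c (((j % (N : ℤ) : ℤ) : ℝ) * Real.pi / N)).2.2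
  have hper : ∀ t, fl (t + Real.pi) = fl t + (N : ℤ) := by
    intro t
    show ⌊(N : ℝ) * (t + Real.pi) / Real.pi⌋ = ⌊(N : ℝ) * t / Real.pi⌋ + (N : ℤ)
    have : (N : ℝ) * (t + Real.pi) / Real.pi = (N : ℝ) * t / Real.pi + ((N : ℤ) : ℝ) := by
      push_cast; field_simp
    rw [this, Int.floor_add_intCast]
  have hmod : ∀ j : ℤ, (j + (N : ℤ)) % (N : ℤ) = j % (N : ℤ) := fun j => by
    rw [Int.add_emod_right]
  have hdiv : ∀ j : ℤ, (j + (N : ℤ)) / (N : ℤ) = j / (N : ℤ) + 1 := fun j => by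
    have := Int.add_mul_ediv_right j 1 hNpos.ne'
    rwa [one_mul] at this
  refine ⟨fun t => gb (fl t), fun t => gy (fl t), fun t => gp (fl t),
    ⟨?_, ?_, ?_, ?_, ?_, ?_, ⟨δ, hδ0, ?_⟩, ⟨Y0, ?_⟩, ?_⟩, ?_⟩
  · exact (measurable_from_top (f := gb)).comp hfl
  · exact (measurable_from_top (f := gy)).comp hfl
  · exact (measurable_from_top (f := gp)).comp hfl
  · intro t
    show gb (fl (t + Real.pi)) = gb (fl t)
    rw [hper]
    simp only [gb]
    rw [hmod]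
  · intro t
    show gy (fl (t + Real.pi)) = gy (fl t)
    rw [hper]
    simp only [gy]
    rw [hmod]
  · intro t
    show gp (fl (t + Real.pi)) = -gp (fl t)
    rw [hper]
    simp only [gp]
    rw [hmod, hdiv, zpow_add₀ (by norm_num : (-1 : ℂ) ≠ 0)]
    ring
  · intro t
    exact hc4 _
  · intro t
    exact hc5 _
  · intro t
    exact RgS_int _ _ _ _ (hc1 _)
  · intro t
    set j : ℤ := fl t with hj
    set i : ℤ := j % (N : ℤ) with hi
    set m : ℤ := j / (N : ℤ) with hm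
    have hij : i + (N : ℤ) * m = j := Int.emod_add_mul_ediv j N
    set ti : ℝ := (i : ℝ) * Real.pi / N with hti
    show PhG K t (aS (c ti).1) (cS (c ti).1 (c ti).2.1) ((-1) ^ m * (c ti).2.2)
      ≤ C * Real.sqrt (1 - (c ti).1 ^ 2) + ε₀
    set s : ℝ := t - (m : ℝ) * Real.pi with hs
    have e1 : t = s + (m : ℝ) * Real.pi := by rw [hs]; ring
    rw [e1, PhG_int]
    have hjr : (i : ℝ) + (N : ℝ) * m = j := by exact_mod_cast hij
    have hf1 : (j : ℝ) ≤ (N : ℝ) * t / Real.pi := Int.floor_le _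
    have hf2 : (N : ℝ) * t / Real.pi < (j : ℝ) + 1 := Int.lt_floor_add_one _
    have hst : s - ti = ((N : ℝ) * t / Real.pi - j) * (Real.pi / N) := by
      rw [hs, hti, ← hjr]
      field_simp
      ring
    have hst1 : |s - ti| ≤ Real.pi / N := by
      have h3 : 0 < Real.pi / N := by positivity
      rw [hst, abs_of_nonneg (mul_nonneg (by linarith) h3.le)]
      nlinarith
    have hb3 := hc3 ti
    have na : ‖aS (c ti).1‖ ≤ 2 := by
      rw [norm_aS _ hb3]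
      linarith [(abs_lt.1 hb3).2]
    have nc : ‖cS (c ti).1 (c ti).2.1‖ ≤ 2 + Y0 :=
      (norm_cS_le _ _ hb3).trans (by linarith [hc5 ti])
    have np : ‖(c ti).2.2‖ ≤ 3 + Y0 := by
      obtain ⟨X, Y, hX, hY, hz⟩ := hc1 ti
      rw [hz]
      refine (norm_add_le _ _).trans ?_
      rw [norm_mul, norm_mul, Complex.norm_real, Complex.norm_real, Real.norm_eq_abs,
        Real.norm_eq_abs]
      have i1 := mul_le_mul hX na (norm_nonneg _) (by norm_num)
      have i2 := mul_le_mul hY nc (norm_nonneg _) (by norm_num)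
      linarith
    have h4 := PhG_t K hK h0 R hR hR0 ti s (aS (c ti).1) (cS (c ti).1 (c ti).2.1) (c ti).2.2 D
      (by rw [hD]; linarith)
    have h5 := hc2 ti
    have h6 : 2 * R * D * |s - ti| ≤ 2 * R * D * (Real.pi / N) :=
      mul_le_mul_of_nonneg_left hst1 (by positivity)
    linarith

end Pool.Agent.Helper36.RC
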