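import Pool.Agent.Helper56.RC.St

/-!
Project RC (helper56, helper49), module SGN: Fourier coefficients of the signed support function.
-/

set_option autoImplicit false

open MeasureTheory Set Filter Metric

namespace Pool.Agent.Helper36.RC

open Helper49.LT Helper49.RC Helper87.RC Helper44.RC Helper56.RC

theorem sgn_ii {E : Type*} [NormedAddCommGroup E] [MeasurableSpace E] [BorelSpace E]
    [SecondCountableTopology E] {f : ℝ → E} (hm : Measurable f) {C : ℝ}
    (hC : ∀ t, ‖f t‖ ≤ C) (a b : ℝ) : IntervalIntegrable f volume a b := by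
  rw [intervalIntegrable_iff]
  exact Measure.integrableOn_of_bounded (M := C) (by simp [uIoc]) hm.aestronglyMeasurable
    (Eventually.of_forall hC)

theorem sgn_memLp {f : ℝ → ℂ} (hm : Measurable f) {C : ℝ} (hC : ∀ t, ‖f t‖ ≤ C) (a b : ℝ) :
    MemLp f 2 (volume.restrict (Ioc a b)) :=
  MemLp.of_bound hm.aestronglyMeasurable C (Eventually.of_forall hC)

theorem sgn_char (a b : ℝ) (hba : b - a = Real.pi) (n : ℤ) (x : ℝ) :
    (fourier (-n) (x : AddCircle (b - a)) : ℂ) = ee (-((2 * n : ℤ) : ℝ) * x) := by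
  rw [fourier_coe_apply, hba]
  unfold ee
  congr 1
  have hpi : (Real.pi : ℂ) ≠ 0 := by exact_mod_cast Real.pi_ne_zero
  push_cast
  field_simp

theorem sgn_coeff (a b : ℝ) (hab : a < b) (hba : b - a = Real.pi) (f : ℝ → ℂ) (n : ℤ) :
    fourierCoeffOn hab f n
      = (1 / Real.pi : ℂ) * ∫ x in a..b, ee (-((2 * n : ℤ) : ℝ) * x) * f x := by
  rw [fourierCoeffOn_eq_integral]
  rw [Complex.real_smul]
  congr 1
  · rw [hba]
    push_cast
    rfl
  · apply intervalIntegral.integral_congr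
    intro x _
    show (fourier (-n) (x : AddCircle (b - a)) : ℂ) • f x = _
    rw [sgn_char a b hba, smul_eq_mul]

theorem sgn_meas_ee (c : ℝ) : Measurable fun x : ℝ => ee (c * x) :=
  (continuous_ee.comp (continuous_const.mul continuous_id)).measurable

theorem sgn_add (a b : ℝ) (hab : a < b) (hba : b - a = Real.pi) {f g : ℝ → ℂ}
    (hf : Measurable f) (hg : Measurable g) {C D : ℝ} (hC : ∀ t, ‖f t‖ ≤ C)
    (hD : ∀ t, ‖g t‖ ≤ D) (n : ℤ) (r : ℂ) :
    fourierCoeffOn hab (fun t => f t + r * g t) n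
      = fourierCoeffOn hab f n + r * fourierCoeffOn hab g n := by
  rw [sgn_coeff a b hab hba, sgn_coeff a b hab hba, sgn_coeff a b hab hba]
  have hb : ∀ {h : ℝ → ℂ} {B : ℝ}, Measurable h → (∀ t, ‖h t‖ ≤ B) →
      IntervalIntegrable (fun x => ee (-((2 * n : ℤ) : ℝ) * x) * h x) volume a b := by
    intro h B hh hB
    have hm : Measurable fun x => ee (-((2 * n : ℤ) : ℝ) * x) * h x := (sgn_meas_ee _).mul hh
    refine sgn_ii hm (C := B) (fun t => ?_) a b
    rw [norm_mul, norm_ee, one_mul]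
    exact hB t
  have h1 : ∫ x in a..b, ee (-((2 * n : ℤ) : ℝ) * x) * (f x + r * g x)
      = (∫ x in a..b, ee (-((2 * n : ℤ) : ℝ) * x) * f x)
        + r * ∫ x in a..b, ee (-((2 * n : ℤ) : ℝ) * x) * g x := by
    rw [← intervalIntegral.integral_const_mul, ← intervalIntegral.integral_add (hb hf hC)
      ((hb hg hD).const_mul r)]
    apply intervalIntegral.integral_congr
    intro x _
    ring
  rw [h1]
  ring

theorem sgn_polar (z w : ℂ) :
    ‖z + 1 * w‖ ^ 2 - ‖z + (-1) * w‖ ^ 2 = 4 * (z * (starRingEnd ℂ) w).re := by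
  rw [← Complex.normSq_eq_norm_sq, ← Complex.normSq_eq_norm_sq, Complex.normSq_apply,
    Complex.normSq_apply]
  simp
  ring

theorem sgn_parseval (a b : ℝ) (hab : a < b) (hba : b - a = Real.pi) {f g : ℝ → ℂ}
    (hf : Measurable f) (hg : Measurable g) {C D : ℝ} (hC : ∀ t, ‖f t‖ ≤ C)
    (hD : ∀ t, ‖g t‖ ≤ D) :
    HasSum (fun n : ℤ => (fourierCoeffOn hab f n
      * (starRingEnd ℂ) (fourierCoeffOn hab g n)).re)
      (Real.pi⁻¹ * ∫ x in a..b, (f x * (starRingEnd ℂ) (g x)).re) := by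
  have hm : ∀ r : ℂ, Measurable fun t => f t + r * g t := fun r => hf.add (hg.const_mul r)
  have hb : ∀ r : ℂ, ‖r‖ = 1 → ∀ t, ‖f t + r * g t‖ ≤ C + D := by
    intro r hr t
    refine (norm_add_le _ _).trans (add_le_add (hC t) ?_)
    rw [norm_mul, hr, one_mul]
    exact hD t
  have h1 := hasSum_sq_fourierCoeffOn hab (sgn_memLp (hm 1) (hb 1 norm_one) a b)
  have h2 := hasSum_sq_fourierCoeffOn hab (sgn_memLp (hm (-1)) (hb (-1) (by simp)) a b)
  have h3 := (h1.sub h2).mul_left (1 / 4)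
  have hI : ∀ r : ℂ, ‖r‖ = 1 → IntervalIntegrable (fun t => ‖f t + r * g t‖ ^ 2) volume a b := by
    intro r hr
    refine sgn_ii ((hm r).norm.pow_const 2) (C := (C + D) ^ 2) (fun t => ?_) a b
    rw [norm_pow, norm_norm]
    exact pow_le_pow_left₀ (norm_nonneg _) (hb r hr t) 2
  have e1 : (fun n : ℤ => (fourierCoeffOn hab f n
      * (starRingEnd ℂ) (fourierCoeffOn hab g n)).re) = fun i : ℤ =>
      1 / 4 * (‖fourierCoeffOn hab (fun t => f t + 1 * g t) i‖ ^ 2
        - ‖fourierCoeffOn hab (fun t => f t + -1 * g t) i‖ ^ 2) := by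
    funext n
    rw [sgn_add a b hab hba hf hg hC hD n 1,
      sgn_add a b hab hba hf hg hC hD n (-1), sgn_polar]
    ring
  have e2 : Real.pi⁻¹ * ∫ x in a..b, (f x * (starRingEnd ℂ) (g x)).re
      = 1 / 4 * (((b - a)⁻¹ • ∫ (x : ℝ) in a..b, ‖f x + 1 * g x‖ ^ 2)
        - (b - a)⁻¹ • ∫ (x : ℝ) in a..b, ‖f x + -1 * g x‖ ^ 2) := by
    rw [smul_eq_mul, smul_eq_mul, ← mul_sub, ← intervalIntegral.integral_sub
      (hI 1 norm_one) (hI (-1) (by simp)), hba]
    have h4 : ∫ x in a..b, (‖f x + 1 * g x‖ ^ 2 - ‖f x + (-1) * g x‖ ^ 2)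
        = 4 * ∫ x in a..b, (f x * (starRingEnd ℂ) (g x)).re := by
      rw [← intervalIntegral.integral_const_mul]
      apply intervalIntegral.integral_congr
      intro x _
      exact sgn_polar _ _
    rw [h4]
    ring
  rw [e1, e2]
  exact h3

/-- the coefficients of `F` -/
theorem sgn_fc (F : ℝ → ℂ) (hF : Measurable F) (C : ℝ) (hC : ∀ t, ‖F t‖ ≤ C)
    (hper : ∀ t, F (t + Real.pi) = F t) (a b : ℝ) (hab : a < b) (hba : b - a = Real.pi) (n : ℤ) :
    fourierCoeffOn hab F n = fc F (2 * n) := by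
  rw [sgn_coeff a b hab hba]
  unfold fc
  set h : ℝ → ℂ := fun x => ee (-((2 * n : ℤ) : ℝ) * x) * F x with hh
  have hp : Function.Periodic h Real.pi := by
    intro x
    simp only [hh]
    rw [hper]
    have h1 : ee (-((2 * n : ℤ) : ℝ) * (x + Real.pi)) = ee (-((2 * n : ℤ) : ℝ) * x) := by
      have h2 : ee (-((2 * n : ℤ) : ℝ) * Real.pi) = 1 := by
        have h3 : -((2 * n : ℤ) : ℝ) * Real.pi = ((-n : ℤ) : ℝ) * (2 * Real.pi) := by
          push_cast
          ring
        rw [h3, ee_int_mul, ee_two_pi, one_zpow]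
      rw [mul_add, ee_add, h2, mul_one]
    rw [h1]
  have hI : ∀ a b : ℝ, IntervalIntegrable h volume a b := by
    intro a b
    have hm : Measurable h := (sgn_meas_ee _).mul hF
    refine sgn_ii hm (C := C) (fun t => ?_) a b
    rw [hh]
    show ‖ee (-((2 * n : ℤ) : ℝ) * t) * F t‖ ≤ C
    rw [norm_mul, norm_ee, one_mul]
    exact hC t
  have e1 : ∫ x in a..b, h x = ∫ x in (0 : ℝ)..(0 + Real.pi), h x := by
    have h1 := hp.intervalIntegral_add_eq a 0
    rw [← h1]
    congr 1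
    linarith
  have e2 : ∫ x in (0 : ℝ)..(2 * Real.pi), h x = 2 * ∫ x in (0 : ℝ)..(0 + Real.pi), h x := by
    have h1 := hp.intervalIntegral_add_eq Real.pi 0
    rw [← intervalIntegral.integral_add_adjacent_intervals (hI 0 Real.pi)
      (hI Real.pi (2 * Real.pi))]
    have h2 : (2 * Real.pi) = Real.pi + Real.pi := by ring
    rw [h2, h1, zero_add]
    ring
  have e3 : ∫ t in (0 : ℝ)..(2 * Real.pi), F t * ee (-(((2 * n : ℤ) : ℝ) * t))
      = ∫ x in (0 : ℝ)..(2 * Real.pi), h x := by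
    apply intervalIntegral.integral_congr
    intro x _
    simp only [hh]
    rw [neg_mul, mul_comm]
  rw [e1, e3, e2]
  have hpi : (Real.pi : ℂ) ≠ 0 := by exact_mod_cast Real.pi_ne_zero
  field_simp

/-- the coefficients of the exponential -/
theorem sgn_g (φ : ℝ) (hab : φ - Real.pi < φ) (n : ℤ) :
    fourierCoeffOn hab (fun t => -Complex.I * ee (φ - t)) n
      = 2 * ee (-((2 * n : ℤ) : ℝ) * φ) / (Real.pi * (2 * n + 1)) := by
  have hba : φ - (φ - Real.pi) = Real.pi := by ring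
  rw [sgn_coeff _ _ hab hba]
  set c : ℝ := -((2 * n + 1 : ℤ) : ℝ) with hc
  have hc0 : c ≠ 0 := by
    rw [hc, neg_ne_zero]
    exact_mod_cast (by omega : (2 * n + 1 : ℤ) ≠ 0)
  have hcC : (c : ℂ) ≠ 0 := by exact_mod_cast hc0
  have hpi : (Real.pi : ℂ) ≠ 0 := by exact_mod_cast Real.pi_ne_zero
  have e1 : ∫ x in (φ - Real.pi)..φ, ee (-((2 * n : ℤ) : ℝ) * x) * (-Complex.I * ee (φ - x))
      = (-Complex.I * ee φ) * ∫ x in (φ - Real.pi)..φ, ee (c * x) := by
    rw [← intervalIntegral.integral_const_mul]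
    apply intervalIntegral.integral_congr
    intro x _
    show ee (-((2 * n : ℤ) : ℝ) * x) * (-Complex.I * ee (φ - x)) = -Complex.I * ee φ * ee (c * x)
    have h1 : ee (φ - x) = ee φ * ee (-x) := by rw [← ee_add, sub_eq_add_neg]
    have h2 : ee (c * x) = ee (-((2 * n : ℤ) : ℝ) * x) * ee (-x) := by
      rw [← ee_add]
      congr 1
      rw [hc]
      push_cast
      ring
    rw [h1, h2]
    ring
  have e2 : ∫ x in (φ - Real.pi)..φ, ee (c * x)
      = (ee (c * φ) - ee (c * (φ - Real.pi))) / (c * Complex.I) := by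
    have h1 : ∀ x ∈ uIcc (φ - Real.pi) φ,
        HasDerivAt (fun s : ℝ => ee (c * s) / (c * Complex.I)) (ee (c * x)) x := by
      intro x _
      have h2 := (hasDerivAt_ee c x).div_const (c * Complex.I)
      have h3 : (c : ℂ) * Complex.I * ee (c * x) / (c * Complex.I) = ee (c * x) := by
        field_simp
      rwa [h3] at h2
    rw [intervalIntegral.integral_eq_sub_of_hasDerivAt h1
      ((continuous_ee.comp (continuous_const.mul continuous_id)).intervalIntegrable _ _)]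
    ring
  have e3 : ee (c * (φ - Real.pi)) = -ee (c * φ) := by
    have h1 : c * (φ - Real.pi) = c * φ + ((2 * n + 1 : ℤ) : ℝ) * Real.pi := by
      rw [hc]
      ring
    rw [h1, ee_add, ee_int_mul, ee_pi, Odd.neg_one_zpow ⟨n, rfl⟩]
    ring
  have e4 : ee φ * ee (c * φ) = ee (-((2 * n : ℤ) : ℝ) * φ) := by
    rw [← ee_add]
    congr 1
    rw [hc]
    push_cast
    ring
  have e5 : (c : ℂ) = -(2 * n + 1) := by
    rw [hc]
    push_cast
    ring
  rw [e1, e2, e3, ← e4]
  have hn0 : (2 * (n : ℂ) + 1) ≠ 0 := by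
    rw [e5, neg_ne_zero] at hcC
    exact hcC
  rw [e5]
  field_simp
  ring

theorem hSGN : StSgn := by
  intro F hF ⟨C, hC⟩ hper
  have hcoef : ∀ (φ : ℝ) (hab : φ - Real.pi < φ) (n : ℤ),
      fourierCoeffOn hab F n = fc F (2 * n) := fun φ hab n =>
    sgn_fc F hF C hC hper _ _ hab (by ring) n
  have hlt : ∀ φ : ℝ, φ - Real.pi < φ := fun φ => by linarith [Real.pi_pos]
  -- square summability
  have hsq : Summable fun n : ℤ => ‖fc F (2 * n)‖ ^ 2 := by
    have h1 := (hasSum_sq_fourierCoeffOn (hlt 0) (sgn_memLp hF hC _ _)).summable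
    refine h1.congr fun n => ?_
    rw [hcoef]
  constructor
  · have h1 : Summable fun k : ℕ => ‖fc F (2 * (k : ℤ) + 2)‖ ^ 2 := by
      have := hsq.comp_injective (i := fun k : ℕ => (k : ℤ) + 1) (fun x y h => by
        simpa using h)
      refine this.congr fun k => ?_
      show ‖fc F (2 * ((k : ℤ) + 1))‖ ^ 2 = _
      rw [mul_add, mul_one]
    have h2 : Summable fun k : ℕ => ‖fc F (-(2 * (k : ℤ) + 2))‖ ^ 2 := by
      have := hsq.comp_injective (i := fun k : ℕ => -((k : ℤ) + 1)) (fun x y h => by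
        simpa using h)
      refine this.congr fun k => ?_
      show ‖fc F (2 * (-((k : ℤ) + 1)))‖ ^ 2 = _
      congr 3
    have h3 : Summable fun k : ℕ => 1 / ((k : ℝ) + 1) ^ 2 := by
      have := (summable_nat_add_iff 1).2 (Real.summable_one_div_nat_pow.2 (by norm_num : 1 < 2))
      refine this.congr fun k => ?_
      push_cast
      rfl
    refine Summable.of_nonneg_of_le (fun k => norm_nonneg _) (fun k => ?_)
      ((h1.add h2).add h3)
    set x := fc F (2 * (k : ℤ) + 2)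
    set y := fc F (-(2 * (k : ℤ) + 2))
    have hk : (0 : ℝ) ≤ k := Nat.cast_nonneg k
    have hA : ‖x / (2 * (k : ℂ) + 3)‖ ≤ ‖x‖ ^ 2 + (1 / 2) * (1 / ((k : ℝ) + 1) ^ 2) := by
      rw [norm_div]
      have h4 : ‖(2 * (k : ℂ) + 3)‖ = 2 * (k : ℝ) + 3 := by
        have : (2 * (k : ℂ) + 3) = ((2 * (k : ℝ) + 3 : ℝ) : ℂ) := by push_cast; rfl
        rw [this, Complex.norm_real, Real.norm_eq_abs, abs_of_pos (by positivity)]
      rw [h4]
      have h5 : ‖x‖ / (2 * (k : ℝ) + 3) ≤ ‖x‖ / ((k : ℝ) + 1) :=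
        div_le_div_of_nonneg_left (norm_nonneg _) (by positivity) (by linarith)
      have h6 : ‖x‖ / ((k : ℝ) + 1) = ‖x‖ * (1 / ((k : ℝ) + 1)) := by ring
      have h7 : (1 / ((k : ℝ) + 1)) ^ 2 = 1 / ((k : ℝ) + 1) ^ 2 := by rw [div_pow, one_pow]
      rw [← h7]
      rw [h6] at h5
      nlinarith [sq_nonneg (‖x‖ - 1 / 2 * (1 / ((k : ℝ) + 1))), sq_nonneg (1 / ((k : ℝ) + 1))]
    have hB : ‖(starRingEnd ℂ) y / (2 * (k : ℂ) + 1)‖
        ≤ ‖y‖ ^ 2 + (1 / 2) * (1 / ((k : ℝ) + 1) ^ 2) := by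
      rw [norm_div, RCLike.norm_conj]
      have h4 : ‖(2 * (k : ℂ) + 1)‖ = 2 * (k : ℝ) + 1 := by
        have : (2 * (k : ℂ) + 1) = ((2 * (k : ℝ) + 1 : ℝ) : ℂ) := by push_cast; rfl
        rw [this, Complex.norm_real, Real.norm_eq_abs, abs_of_pos (by positivity)]
      rw [h4]
      have h5 : ‖y‖ / (2 * (k : ℝ) + 1) ≤ ‖y‖ / ((k : ℝ) + 1) :=
        div_le_div_of_nonneg_left (norm_nonneg _) (by positivity) (by linarith)
      have h6 : ‖y‖ / ((k : ℝ) + 1) = ‖y‖ * (1 / ((k : ℝ) + 1)) := by ring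
      have h7 : (1 / ((k : ℝ) + 1)) ^ 2 = 1 / ((k : ℝ) + 1) ^ 2 := by rw [div_pow, one_pow]
      rw [← h7]
      rw [h6] at h5
      nlinarith [sq_nonneg (‖y‖ - 1 / 2 * (1 / ((k : ℝ) + 1))), sq_nonneg (1 / ((k : ℝ) + 1))]
    calc ‖x / (2 * (k : ℂ) + 3) - (starRingEnd ℂ) y / (2 * (k : ℂ) + 1)‖
        ≤ ‖x / (2 * (k : ℂ) + 3)‖ + ‖(starRingEnd ℂ) y / (2 * (k : ℂ) + 1)‖ := norm_sub_le _ _
      _ ≤ ‖x‖ ^ 2 + ‖y‖ ^ 2 + 1 / ((k : ℝ) + 1) ^ 2 := by linarith
  · intro φ
    have hab := hlt φ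
    have hba : φ - (φ - Real.pi) = Real.pi := by ring
    have hgm : Measurable fun t : ℝ => -Complex.I * ee (φ - t) :=
      (continuous_const.mul (continuous_ee.comp (continuous_const.sub continuous_id))).measurable
    have hgb : ∀ t : ℝ, ‖-Complex.I * ee (φ - t)‖ ≤ 1 := by
      intro t
      rw [norm_mul, norm_ee, norm_neg, Complex.norm_I, one_mul]
    have hP := sgn_parseval _ _ hab hba hF hgm hC hgb
    have hP2 := hP.mul_left Real.pi
    -- the value of the integral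
    have hval : Real.pi * (Real.pi⁻¹ * ∫ x in (φ - Real.pi)..φ,
        (F x * (starRingEnd ℂ) (-Complex.I * ee (φ - x))).re)
        = (ee φ * (starRingEnd ℂ) (∫ t in (φ - Real.pi)..φ, ee t * F t)).im := by
      rw [mul_inv_cancel_left₀ Real.pi_ne_zero]
      have hII : IntervalIntegrable (fun t => (Complex.I * ee (-φ)) * (ee t * F t)) volume
          (φ - Real.pi) φ := by
        refine sgn_ii (C := C) ?_ (fun t => ?_) _ _
        · exact (continuous_ee.measurable.mul hF).const_mul _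
        · rw [norm_mul, norm_mul, norm_mul, norm_ee, norm_ee, Complex.norm_I, one_mul, one_mul,
            one_mul]
          exact hC t
      have h1 := Complex.reCLM.intervalIntegral_comp_comm hII
      simp only [Complex.reCLM_apply] at h1
      rw [intervalIntegral.integral_const_mul] at h1
      have h2 : ∫ x in (φ - Real.pi)..φ, (F x * (starRingEnd ℂ) (-Complex.I * ee (φ - x))).re
          = ∫ x in (φ - Real.pi)..φ, (Complex.I * ee (-φ) * (ee x * F x)).re := by
        apply intervalIntegral.integral_congr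
        intro x _
        show (F x * (starRingEnd ℂ) (-Complex.I * ee (φ - x))).re = _
        congr 1
        rw [map_mul, ← ee_neg, map_neg, Complex.conj_I, neg_neg]
        have h3 : ee (-(φ - x)) = ee (-φ) * ee x := by
          rw [← ee_add]
          congr 1
          ring
        rw [h3]
        ring
      rw [h2, h1, ee_neg]
      set Z := ∫ t in (φ - Real.pi)..φ, ee t * F t
      simp
      ring
    rw [hval] at hP2
    set f : ℤ → ℝ := fun n => Real.pi * (fourierCoeffOn hab F n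
      * (starRingEnd ℂ) (fourierCoeffOn hab (fun t => -Complex.I * ee (φ - t)) n)).re with hf
    have hfn : ∀ n : ℤ, f n = 2 * (fc F (2 * n) * ee (((2 * n : ℤ) : ℝ) * φ)).re
        / (2 * (n : ℝ) + 1) := by
      intro n
      simp only [hf]
      rw [hcoef, sgn_g]
      have hpi : (Real.pi : ℂ) ≠ 0 := by exact_mod_cast Real.pi_ne_zero
      have h1 : (starRingEnd ℂ) (2 * ee (-((2 * n : ℤ) : ℝ) * φ) / (Real.pi * (2 * n + 1)))
          = ((2 / (Real.pi * (2 * (n : ℝ) + 1)) : ℝ) : ℂ) * ee (((2 * n : ℤ) : ℝ) * φ) := by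
        rw [neg_mul, ee_neg, map_div₀, map_mul, map_mul, Complex.conj_conj, Complex.conj_ofReal]
        have h2 : (starRingEnd ℂ) (2 * (n : ℂ) + 1) = 2 * (n : ℂ) + 1 := by
          rw [map_add, map_mul, map_intCast, map_one, Complex.conj_ofNat]
        rw [h2, Complex.conj_ofNat]
        push_cast
        ring
      rw [h1]
      have h3 : fc F (2 * n) * (((2 / (Real.pi * (2 * (n : ℝ) + 1)) : ℝ) : ℂ)
          * ee (((2 * n : ℤ) : ℝ) * φ))
          = ((2 / (Real.pi * (2 * (n : ℝ) + 1)) : ℝ) : ℂ)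
            * (fc F (2 * n) * ee (((2 * n : ℤ) : ℝ) * φ)) := by ring
      rw [h3, Complex.re_ofReal_mul]
      have hn0 : (2 * (n : ℝ) + 1) ≠ 0 := by
        exact_mod_cast (by omega : (2 * n + 1 : ℤ) ≠ 0)
      field_simp
    have hnat := hP2.nat_add_neg
    have hshift := (hasSum_nat_add_iff' (f := fun n : ℕ => f n + f (-(n : ℤ))) 1).2 hnat
    have hf0 : f 0 = 2 * (fc F 0).re := by
      rw [hfn]
      simp [ee_zero]
    rw [Finset.sum_range_one] at hshift
    have hterm : ∀ k : ℕ, f ((k + 1 : ℕ) : ℤ) + f (-((k + 1 : ℕ) : ℤ))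
        = 2 * ((fc F (2 * (k : ℤ) + 2) / (2 * k + 3)
          - (starRingEnd ℂ) (fc F (-(2 * (k : ℤ) + 2))) / (2 * k + 1))
            * ee ((2 * (k : ℝ) + 2) * φ)).re := by
      intro k
      rw [hfn, hfn]
      have i1 : (2 * (((k + 1 : ℕ) : ℤ)) : ℤ) = 2 * (k : ℤ) + 2 := by push_cast; ring
      have i2 : (2 * (-((k + 1 : ℕ) : ℤ)) : ℤ) = -(2 * (k : ℤ) + 2) := by push_cast; ring
      rw [i1, i2]
      have r1 : ((2 * (k : ℤ) + 2 : ℤ) : ℝ) * φ = (2 * (k : ℝ) + 2) * φ := by push_cast; ring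
      have r2 : ((-(2 * (k : ℤ) + 2) : ℤ) : ℝ) * φ = -((2 * (k : ℝ) + 2) * φ) := by
        push_cast; ring
      rw [r1, r2, ee_neg]
      set E := ee ((2 * (k : ℝ) + 2) * φ)
      set x := fc F (2 * (k : ℤ) + 2)
      set y := fc F (-(2 * (k : ℤ) + 2))
      have hk : (0 : ℝ) ≤ k := Nat.cast_nonneg k
      have hc1 : (2 * (((k + 1 : ℕ) : ℤ) : ℝ) + 1) = 2 * (k : ℝ) + 3 := by push_cast; ring
      have hc2 : (2 * ((-((k + 1 : ℕ) : ℤ) : ℤ) : ℝ) + 1) = -(2 * (k : ℝ) + 1) := by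
        push_cast; ring
      rw [hc1, hc2]
      have hy : (y * (starRingEnd ℂ) E).re = ((starRingEnd ℂ) y * E).re := by
        rw [← Complex.conj_re (y * (starRingEnd ℂ) E), map_mul, Complex.conj_conj]
      rw [hy]
      have h1 : (x / (2 * (k : ℂ) + 3) - (starRingEnd ℂ) y / (2 * (k : ℂ) + 1)) * E
          = ((1 / (2 * (k : ℝ) + 3) : ℝ) : ℂ) * (x * E)
            - ((1 / (2 * (k : ℝ) + 1) : ℝ) : ℂ) * ((starRingEnd ℂ) y * E) := by
        push_cast
        ring
      rw [h1, Complex.sub_re, Complex.re_ofReal_mul, Complex.re_ofReal_mul]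
      have p1 : (2 * (k : ℝ) + 3) ≠ 0 := by positivity
      have p2 : (2 * (k : ℝ) + 1) ≠ 0 := by positivity
      field_simp
      ring
    have hfin : HasSum (fun k : ℕ => 2 * ((fc F (2 * (k : ℤ) + 2) / (2 * k + 3)
          - (starRingEnd ℂ) (fc F (-(2 * (k : ℤ) + 2))) / (2 * k + 1))
            * ee ((2 * (k : ℝ) + 2) * φ)).re)
        ((ee φ * (starRingEnd ℂ) (∫ t in (φ - Real.pi)..φ, ee t * F t)).im
          - 2 * (fc F 0).re) := by
      have g1 : (fun n : ℕ => f ((n + 1 : ℕ) : ℤ) + f (-((n + 1 : ℕ) : ℤ)))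
          = fun k : ℕ => 2 * ((fc F (2 * (k : ℤ) + 2) / (2 * k + 3)
          - (starRingEnd ℂ) (fc F (-(2 * (k : ℤ) + 2))) / (2 * k + 1))
            * ee ((2 * (k : ℝ) + 2) * φ)).re := funext hterm
      have g2 : (ee φ * (starRingEnd ℂ) (∫ t in (φ - Real.pi)..φ, ee t * F t)).im + f 0
          - (f ((0 : ℕ) : ℤ) + f (-((0 : ℕ) : ℤ)))
          = (ee φ * (starRingEnd ℂ) (∫ t in (φ - Real.pi)..φ, ee t * F t)).im
          - 2 * (fc F 0).re := by
        rw [Nat.cast_zero, neg_zero, hf0]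
        ring
      rw [← g1, ← g2]
      exact hshift
    have hts := hfin.tsum_eq
    rw [tsum_mul_left] at hts
    linarith

end Pool.Agent.Helper36.RC
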