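import Pool.Agent.Helper56.RC.StF
import Pool.Agent.Helper87.RC.M_KERb

/-!
Project RC (helper56), module STP: upper bound of `S`.
-/

set_option autoImplicit false

open MeasureTheory Set Filter Metric

namespace Pool.Agent.Helper36.RC

open Helper49.LT hiding sg
open Helper49.RC Helper87.RC Helper44.RC Helper56.RC

theorem stp_ii {f : ℝ → ℝ} (hm : Measurable f) {C : ℝ}
    (hC : ∀ t, ‖f t‖ ≤ C) (a b : ℝ) : IntervalIntegrable f volume a b := by
  rw [intervalIntegrable_iff]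
  exact Measure.integrableOn_of_bounded (M := C) (by simp [uIoc]) hm.aestronglyMeasurable
    (Eventually.of_forall hC)

theorem stp_comb (a b c : ℝ) (ha : 0 ≤ a) (hb : 0 ≤ b) (hc : 0 ≤ c) (u v w : ℂ) :
    ‖(a : ℂ) * u + (b : ℂ) * v + (c : ℂ) * w‖ ≤ a * ‖u‖ + b * ‖v‖ + c * ‖w‖ := by
  refine (norm_add₃_le).trans ?_
  rw [norm_mul, norm_mul, norm_mul, Complex.norm_real, Complex.norm_real, Complex.norm_real,
    Real.norm_of_nonneg ha, Real.norm_of_nonneg hb, Real.norm_of_nonneg hc]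

/-- the convexity step for two vectors -/
theorem stp_conv (q1 q2 : ℂ) (n x y : ℝ) (h : |x| + |y| ≤ 1)
    (h1 : ‖q1‖ ≤ n) (h2 : ‖q2‖ ≤ n) (hs : ‖q1 + q2‖ ≤ 3 * n) (hd : ‖q1 - q2‖ ≤ n) :
    ‖q1 + ((x : ℂ) * q1 + (y : ℂ) * q2)‖ + ‖q2 - ((x : ℂ) * q1 + (y : ℂ) * q2)‖ ≤ 3 * n := by
  have hn : 0 ≤ n := (norm_nonneg _).trans h1
  have hd' : ‖q2 - q1‖ ≤ n := by rw [norm_sub_rev]; exact hd
  have h21 : ‖2 * q1‖ ≤ 2 * n := by
    rw [norm_mul, Complex.norm_ofNat]; linarith
  have h22 : ‖2 * q2‖ ≤ 2 * n := by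
    rw [norm_mul, Complex.norm_ofNat]; linarith
  have hs' : ‖q2 + q1‖ ≤ 3 * n := by rw [add_comm]; exact hs
  rcases le_total 0 x with hx | hx <;> rcases le_total 0 y with hy | hy
  · rw [abs_of_nonneg hx, abs_of_nonneg hy] at h
    have e1 : q1 + ((x : ℂ) * q1 + (y : ℂ) * q2) =
        ((1 - x - y : ℝ) : ℂ) * q1 + (x : ℂ) * (2 * q1) + (y : ℂ) * (q1 + q2) := by
      push_cast; ring
    have e2 : q2 - ((x : ℂ) * q1 + (y : ℂ) * q2) =
        ((1 - x - y : ℝ) : ℂ) * q2 + (x : ℂ) * (q2 - q1) + (y : ℂ) * 0 := by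
      push_cast; ring
    have b1 := stp_comb (1 - x - y) x y (by linarith) hx hy q1 (2 * q1) (q1 + q2)
    have b2 := stp_comb (1 - x - y) x y (by linarith) hx hy q2 (q2 - q1) 0
    rw [e1, e2]
    rw [norm_zero] at b2
    have c0 : 0 ≤ 1 - x - y := by linarith
    have c1 := mul_le_mul_of_nonneg_left h1 c0
    have c2 := mul_le_mul_of_nonneg_left h2 c0
    have c3 := mul_le_mul_of_nonneg_left h21 hx
    have c4 := mul_le_mul_of_nonneg_left hd' hx
    have c5 := mul_le_mul_of_nonneg_left hs hy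
    nlinarith
  · rw [abs_of_nonneg hx, abs_of_nonpos hy] at h
    have e1 : q1 + ((x : ℂ) * q1 + (y : ℂ) * q2) =
        ((1 - x - -y : ℝ) : ℂ) * q1 + (x : ℂ) * (2 * q1) + ((-y : ℝ) : ℂ) * (q1 - q2) := by
      push_cast; ring
    have e2 : q2 - ((x : ℂ) * q1 + (y : ℂ) * q2) =
        ((1 - x - -y : ℝ) : ℂ) * q2 + (x : ℂ) * (q2 - q1) + ((-y : ℝ) : ℂ) * (2 * q2) := by
      push_cast; ring
    have b1 := stp_comb (1 - x - -y) x (-y) (by linarith) hx (by linarith) q1 (2 * q1) (q1 - q2)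
    have b2 := stp_comb (1 - x - -y) x (-y) (by linarith) hx (by linarith) q2 (q2 - q1) (2 * q2)
    rw [e1, e2]
    have c0 : 0 ≤ 1 - x - -y := by linarith
    have hy' : 0 ≤ -y := by linarith
    have c1 := mul_le_mul_of_nonneg_left h1 c0
    have c2 := mul_le_mul_of_nonneg_left h2 c0
    have c3 := mul_le_mul_of_nonneg_left h21 hx
    have c4 := mul_le_mul_of_nonneg_left hd' hx
    have c5 := mul_le_mul_of_nonneg_left hd hy'
    have c6 := mul_le_mul_of_nonneg_left h22 hy'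
    nlinarith
  · rw [abs_of_nonpos hx, abs_of_nonneg hy] at h
    have e1 : q1 + ((x : ℂ) * q1 + (y : ℂ) * q2) =
        ((1 - -x - y : ℝ) : ℂ) * q1 + ((-x : ℝ) : ℂ) * 0 + (y : ℂ) * (q1 + q2) := by
      push_cast; ring
    have e2 : q2 - ((x : ℂ) * q1 + (y : ℂ) * q2) =
        ((1 - -x - y : ℝ) : ℂ) * q2 + ((-x : ℝ) : ℂ) * (q2 + q1) + (y : ℂ) * 0 := by
      push_cast; ring
    have b1 := stp_comb (1 - -x - y) (-x) y (by linarith) (by linarith) hy q1 0 (q1 + q2)
    have b2 := stp_comb (1 - -x - y) (-x) y (by linarith) (by linarith) hy q2 (q2 + q1) 0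
    rw [e1, e2]
    rw [norm_zero] at b1 b2
    have c0 : 0 ≤ 1 - -x - y := by linarith
    have hx' : 0 ≤ -x := by linarith
    have c1 := mul_le_mul_of_nonneg_left h1 c0
    have c2 := mul_le_mul_of_nonneg_left h2 c0
    have c4 := mul_le_mul_of_nonneg_left hs' hx'
    have c5 := mul_le_mul_of_nonneg_left hs hy
    nlinarith
  · rw [abs_of_nonpos hx, abs_of_nonpos hy] at h
    have e1 : q1 + ((x : ℂ) * q1 + (y : ℂ) * q2) =
        ((1 - -x - -y : ℝ) : ℂ) * q1 + ((-x : ℝ) : ℂ) * 0 + ((-y : ℝ) : ℂ) * (q1 - q2) := by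
      push_cast; ring
    have e2 : q2 - ((x : ℂ) * q1 + (y : ℂ) * q2) =
        ((1 - -x - -y : ℝ) : ℂ) * q2 + ((-x : ℝ) : ℂ) * (q2 + q1) + ((-y : ℝ) : ℂ) * (2 * q2) := by
      push_cast; ring
    have b1 := stp_comb (1 - -x - -y) (-x) (-y) (by linarith) (by linarith) (by linarith)
      q1 0 (q1 - q2)
    have b2 := stp_comb (1 - -x - -y) (-x) (-y) (by linarith) (by linarith) (by linarith)
      q2 (q2 + q1) (2 * q2)
    rw [e1, e2]
    rw [norm_zero] at b1
    have c0 : 0 ≤ 1 - -x - -y := by linarith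
    have hx' : 0 ≤ -x := by linarith
    have hy' : 0 ≤ -y := by linarith
    have c1 := mul_le_mul_of_nonneg_left h1 c0
    have c2 := mul_le_mul_of_nonneg_left h2 c0
    have c4 := mul_le_mul_of_nonneg_left hs' hx'
    have c5 := mul_le_mul_of_nonneg_left hd hy'
    have c6 := mul_le_mul_of_nonneg_left h22 hy'
    nlinarith

/-- the pointwise bound -/
theorem stp_pt (b p : ℂ) (h : Reg b p) : ‖f1 b p‖ + ‖f2 b p‖ ≤ 3 * (1 + ‖b‖) := by
  obtain ⟨x, y, hxy, hp⟩ := h
  have ho := norm_om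
  have hoc : ‖(starRingEnd ℂ) om‖ = 1 := by rw [Complex.norm_conj, ho]
  have h1 : ‖f1 b 0‖ ≤ 1 + ‖b‖ := by
    unfold f1
    rw [add_zero]
    refine (norm_add_le _ _).trans ?_
    rw [norm_mul, hoc, ho]
    linarith
  have h2 : ‖f2 b 0‖ ≤ 1 + ‖b‖ := by
    unfold f2
    rw [sub_zero]
    refine (norm_add_le _ _).trans ?_
    rw [norm_mul, norm_pow, norm_pow, hoc, ho]
    linarith
  have hoc2 : (starRingEnd ℂ) om ^ 2 = (starRingEnd ℂ) om - 1 := by
    rw [om_conj]
    linear_combination om_sq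
  have hd : ‖f1 b 0 - f2 b 0‖ ≤ 1 + ‖b‖ := by
    have e : f1 b 0 - f2 b 0 = 1 + b := by
      unfold f1 f2
      rw [om_sq, hoc2]
      ring
    rw [e]
    refine (norm_add_le _ _).trans ?_
    rw [norm_one]
  have hs : ‖f1 b 0 + f2 b 0‖ ≤ 3 * (1 + ‖b‖) := by
    refine (norm_add_le _ _).trans ?_
    linarith [norm_nonneg b]
  have e1 : f1 b p = f1 b 0 + ((x : ℂ) * f1 b 0 + (y : ℂ) * f2 b 0) := by
    rw [← hp]; unfold f1; ring
  have e2 : f2 b p = f2 b 0 - ((x : ℂ) * f1 b 0 + (y : ℂ) * f2 b 0) := by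
    rw [← hp]; unfold f2; ring
  rw [e1, e2]
  exact stp_conv _ _ _ x y hxy h1 h2 hs hd

theorem hSTP : StStp := by
  intro β P h hlt
  have hpi := Real.pi_pos
  have h2pi : 0 < 2 * Real.pi := by positivity
  -- the function `g`
  set g : ℝ → ℝ := fun t => ‖f1 (β t) (P t)‖ + ‖f2 (β t) (P t)‖ with hg
  have hgm : Measurable g := by
    have a1 : Measurable fun t => f1 (β t) (P t) := by
      unfold f1
      exact (measurable_const.add (h.mb.const_mul _)).add h.mp
    have a2 : Measurable fun t => f2 (β t) (P t) := by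
      unfold f2
      exact (measurable_const.add (h.mb.const_mul _)).sub h.mp
    exact a1.norm.add a2.norm
  have hgle : ∀ t, g t ≤ 3 * (1 + ‖β t‖) := fun t => stp_pt _ _ (h.reg t)
  have hg0 : ∀ t, 0 ≤ g t := fun t => add_nonneg (norm_nonneg _) (norm_nonneg _)
  have hgi : IntervalIntegrable g volume 0 (2 * Real.pi) := by
    refine stp_ii hgm (C := 6) (fun t => ?_) _ _
    rw [Real.norm_of_nonneg (hg0 t)]
    have := hgle t
    linarith [hlt t]
  have hbi : IntervalIntegrable (fun t => ‖β t‖) volume 0 (2 * Real.pi) := by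
    refine stp_ii h.mb.norm (C := 1) (fun t => ?_) _ _
    rw [norm_norm]
    exact (hlt t).le
  have hb2i : IntervalIntegrable (fun t => ‖β t‖ ^ 2) volume 0 (2 * Real.pi) := by
    refine stp_ii (h.mb.norm.pow_const 2) (C := 1) (fun t => ?_) _ _
    rw [Real.norm_of_nonneg (sq_nonneg _)]
    exact pow_le_one₀ (norm_nonneg _) (hlt t).le
  -- the moment of order zero
  have hsN : (sN β P 0).re = (1 / (2 * Real.pi)) * ∫ t in (0 : ℝ)..(2 * Real.pi), g t := by
    have e : sN β P 0 = (((1 / (2 * Real.pi)) * ∫ t in (0 : ℝ)..(2 * Real.pi), g t : ℝ) : ℂ) := by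
      unfold sN
      rw [Complex.ofReal_mul, ← intervalIntegral.integral_ofReal]
      congr 1
      · push_cast; ring
      · congr 1
        funext t
        unfold nn
        rw [pow_zero, pow_zero, mul_one, mul_one, norm_mul, norm_mul, norm_ee, one_mul, one_mul]
        simp only [hg]
        push_cast
        rfl
    rw [e, Complex.ofReal_re]
  -- the mean of the norm
  set m1 : ℝ := (1 / (2 * Real.pi)) * ∫ t in (0 : ℝ)..(2 * Real.pi), ‖β t‖ with hm1
  have hmean1 : (1 / (2 * Real.pi)) * ∫ t in (0 : ℝ)..(2 * Real.pi), g t ≤ 3 * (1 + m1) := by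
    have i1 : ∫ t in (0 : ℝ)..(2 * Real.pi), g t
        ≤ ∫ t in (0 : ℝ)..(2 * Real.pi), 3 * (1 + ‖β t‖) :=
      intervalIntegral.integral_mono_on h2pi.le hgi
        ((intervalIntegrable_const.add hbi).const_mul 3) (fun t _ => hgle t)
    have i2 : ∫ t in (0 : ℝ)..(2 * Real.pi), 3 * (1 + ‖β t‖)
        = 3 * (2 * Real.pi + ∫ t in (0 : ℝ)..(2 * Real.pi), ‖β t‖) := by
      rw [intervalIntegral.integral_const_mul,
        intervalIntegral.integral_add intervalIntegrable_const hbi,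
        intervalIntegral.integral_const, smul_eq_mul, mul_one, sub_zero]
    rw [i2] at i1
    have i3 := mul_le_mul_of_nonneg_left i1 (by positivity : 0 ≤ 1 / (2 * Real.pi))
    refine i3.trans (le_of_eq ?_)
    rw [hm1]
    field_simp
  have hmB0 : 0 ≤ mB β := by
    unfold mB
    refine mul_nonneg (by positivity) ?_
    exact intervalIntegral.integral_nonneg h2pi.le (fun t _ => sq_nonneg _)
  have hmean2 : m1 ≤ Real.sqrt (mB β) := by
    refine le_of_forall_pos_le_add fun ε hε => ?_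
    set e : ℝ := Real.sqrt (mB β) + ε with he
    have he0 : 0 < e := by
      have := Real.sqrt_nonneg (mB β)
      linarith
    have hse : mB β ≤ e ^ 2 := by
      have h1 := Real.sq_sqrt hmB0
      have h2 : Real.sqrt (mB β) ^ 2 ≤ e ^ 2 :=
        pow_le_pow_left₀ (Real.sqrt_nonneg _) (by linarith) 2
      linarith
    have i1 : ∫ t in (0 : ℝ)..(2 * Real.pi), 2 * e * ‖β t‖
        ≤ ∫ t in (0 : ℝ)..(2 * Real.pi), (‖β t‖ ^ 2 + e ^ 2) :=
      intervalIntegral.integral_mono_on h2pi.le (hbi.const_mul _)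
        (hb2i.add intervalIntegrable_const)
        (fun t _ => by nlinarith [sq_nonneg (‖β t‖ - e)])
    rw [intervalIntegral.integral_const_mul,
      intervalIntegral.integral_add hb2i intervalIntegrable_const,
      intervalIntegral.integral_const, smul_eq_mul, sub_zero] at i1
    have i2 := mul_le_mul_of_nonneg_left i1 (by positivity : 0 ≤ 1 / (2 * Real.pi))
    have i3 : 2 * e * m1 ≤ mB β + e ^ 2 := by
      calc 2 * e * m1 = 1 / (2 * Real.pi) * (2 * e * ∫ t in (0 : ℝ)..(2 * Real.pi), ‖β t‖) := by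
            rw [hm1]; ring
        _ ≤ 1 / (2 * Real.pi) * ((∫ t in (0 : ℝ)..(2 * Real.pi), ‖β t‖ ^ 2)
              + 2 * Real.pi * e ^ 2) := i2
        _ = mB β + e ^ 2 := by
            unfold mB
            rw [mul_add]
            congr 1
            field_simp
    have i4 : e * m1 ≤ e * e := by nlinarith
    exact le_of_mul_le_mul_left i4 he0
  unfold SS
  rw [hsN]
  linarith

end Pool.Agent.Helper36.RC
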